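import Pool.Agent.Lib.MP_446dfa_ag.helper66.Ops

set_option linter.all false

/-!
# Base change of the operators and of the pentagon relation
-/

noncomputable section

namespace MP446Y

universe v w

attribute [local instance 100] LieRing.ofAssociativeRing

section Base

variable {k₀ : Type w} [CommRing k₀] {k : Type v} [CommRing k] (f : k₀ →+* k)

/-- the base change `R_{k₀} → R_k` -/
def jj : RR k₀ →+* RR k :=
  letI : Algebra k₀ (RR k) := RingHom.toAlgebra' ((algebraMap k (RR k)).comp f)
    (fun c x => Algebra.commutes (f c) x)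
  (liftR (gen k) (gen_one_sq k) (gen_two_sq k) : RR k₀ →ₐ[k₀] RR k).toRingHom

@[simp] lemma jj_gen (i : Fin 3) : jj f (gen k₀ i) = gen k i := by
  letI : Algebra k₀ (RR k) := RingHom.toAlgebra' ((algebraMap k (RR k)).comp f)
    (fun c x => Algebra.commutes (f c) x)
  exact liftR_gen (k := k₀) (gen k) (gen_one_sq k) (gen_two_sq k) i

lemma jj_algebraMap (c : k₀) : jj f (algebraMap k₀ (RR k₀) c) = algebraMap k (RR k) (f c) := by
  letI : Algebra k₀ (RR k) := RingHom.toAlgebra' ((algebraMap k (RR k)).comp f)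
    (fun c x => Algebra.commutes (f c) x)
  exact (liftR (gen k) (gen_one_sq k) (gen_two_sq k) : RR k₀ →ₐ[k₀] RR k).commutes c

lemma jj_der (D : DData k₀) (D' : DData k) (h : ∀ i, jj f (D.d i) = D'.d i) (r : RR k₀) :
    jj f (der D r) = der D' (jj f r) := by
  induction r using RR_induction with
  | halg c => rw [der_algebraMap, jj_algebraMap, der_algebraMap, map_zero]
  | hgen i => rw [der_gen, jj_gen, der_gen, h]
  | hadd x y hx hy => rw [map_add, map_add, map_add, map_add, hx, hy]
  | hmul x y hx hy => rw [der_mul, map_add, map_mul, map_mul, map_mul, der_mul, hx, hy]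

lemma jj_oA (r : RR k₀) : jj f (oA k₀ r) = oA k (jj f r) := by
  apply jj_der
  intro i
  fin_cases i
  · change jj f 0 = 0
    rw [map_zero]
  · change jj f (gen k₀ 1 * gen k₀ 0 - gen k₀ 0 * gen k₀ 1) =
      gen k 1 * gen k 0 - gen k 0 * gen k 1
    simp only [map_sub, map_mul, jj_gen]
  · change jj f 0 = 0
    rw [map_zero]

lemma jj_oC (r : RR k₀) : jj f (oC k₀ r) = oC k (jj f r) := by
  apply jj_der
  intro i
  fin_cases i
  · change jj f (gen k₀ 1 * gen k₀ 2 - gen k₀ 2 * gen k₀ 1) =
      gen k 1 * gen k 2 - gen k 2 * gen k 1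
    simp only [map_sub, map_mul, jj_gen]
  · change jj f (gen k₀ 1 * gen k₀ 2 - gen k₀ 2 * gen k₀ 1) =
      gen k 1 * gen k 2 - gen k 2 * gen k 1
    simp only [map_sub, map_mul, jj_gen]
  · change jj f (-(gen k₀ 1 * gen k₀ 2 - gen k₀ 2 * gen k₀ 1)) =
      -(gen k 1 * gen k 2 - gen k 2 * gen k 1)
    simp only [map_neg, map_sub, map_mul, jj_gen]

/-- compatibility of two operators with the base change -/
def Cmp (S : Module.End k₀ (RR k₀)) (T : Module.End k (RR k)) : Prop :=
  ∀ r, jj f (S r) = T (jj f r)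

variable {f}

lemma Cmp.add {S S' : Module.End k₀ (RR k₀)} {T T' : Module.End k (RR k)} (h : Cmp f S T)
    (h' : Cmp f S' T') : Cmp f (S + S') (T + T') := by
  intro r
  rw [LinearMap.add_apply, map_add, h, h', LinearMap.add_apply]

lemma Cmp.neg {S : Module.End k₀ (RR k₀)} {T : Module.End k (RR k)} (h : Cmp f S T) :
    Cmp f (-S) (-T) := by
  intro r
  rw [LinearMap.neg_apply, map_neg, h, LinearMap.neg_apply]

lemma Cmp.mul {S S' : Module.End k₀ (RR k₀)} {T T' : Module.End k (RR k)} (h : Cmp f S T)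
    (h' : Cmp f S' T') : Cmp f (S * S') (T * T') := by
  intro r
  rw [Module.End.mul_apply, Module.End.mul_apply, h, h']

lemma Cmp.one : Cmp f (1 : Module.End k₀ (RR k₀)) (1 : Module.End k (RR k)) := fun r => rfl

lemma Cmp.oL (r : RR k₀) : Cmp f (oL k₀ r) (oL k (jj f r)) := by
  intro s
  rw [oL_apply, oL_apply, map_mul]

lemma cmp_t (i j : Fin 4) : Cmp f (tt k₀ i j) (tt k i j) := by
  have hz : Cmp f (0 : Module.End k₀ (RR k₀)) (0 : Module.End k (RR k)) := by
    intro r
    rw [LinearMap.zero_apply, LinearMap.zero_apply, map_zero]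
  have hA : Cmp f (oA k₀) (oA k) := jj_oA f
  have hC : Cmp f (oC k₀) (oC k) := jj_oC f
  have hU : Cmp f (oL k₀ (gu k₀)) (oL k (gu k)) := by
    have := Cmp.oL (f := f) (gu k₀)
    rwa [gu, jj_gen] at this
  have hB : Cmp f (oL k₀ (gb k₀)) (oL k (gb k)) := by
    have := Cmp.oL (f := f) (gb k₀)
    rwa [gb, jj_gen] at this
  have hG : Cmp f (oG k₀) (oG k) := by
    have := Cmp.oL (f := f) (gx k₀ - gu k₀)
    rwa [gx, gu, map_sub, jj_gen, jj_gen] at this
  have hH : Cmp f (oH k₀) (oH k) := by
    have := Cmp.oL (f := f) (gx k₀ + gb k₀)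
    rw [gx, gb, map_add, jj_gen, jj_gen] at this
    exact ((hA.add hC).add this).neg
  fin_cases i <;> fin_cases j
  · exact hz
  · exact hA
  · exact hG
  · exact hH
  · exact hA
  · exact hz
  · exact hU
  · exact hC
  · exact hG
  · exact hU
  · exact hz
  · exact hB
  · exact hH
  · exact hC
  · exact hB
  · exact hz

/-- evaluation of words -/
def evw {A : Type*} [Monoid A] (p q : A) : FreeMonoid (Fin 2) →* A := FreeMonoid.lift ![p, q]

lemma Cmp.evw {P Q : Module.End k₀ (RR k₀)} {P' Q' : Module.End k (RR k)} (h : Cmp f P P')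
    (h' : Cmp f Q Q') (w : FreeMonoid (Fin 2)) : Cmp f (evw P Q w) (evw P' Q' w) := by
  induction w using FreeMonoid.inductionOn' with
  | one => rw [map_one, map_one]; exact Cmp.one
  | of_mul i w ih =>
    rw [map_mul, map_mul]
    refine Cmp.mul ?_ ih
    fin_cases i
    · exact h
    · exact h'

variable (f)

/-- base change of coefficients -/
def castF : (List (Fin 3) →₀ k₀) →+ (List (Fin 3) →₀ k) :=
  Finsupp.mapRange.addMonoidHom f.toAddMonoidHom

lemma castF_apply (v : List (Fin 3) →₀ k₀) (W : List (Fin 3)) : castF f v W = f (v W) := rfl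

lemma castF_single (W : List (Fin 3)) (c : k₀) :
    castF f (Finsupp.single W c) = Finsupp.single W (f c) := by
  simp [castF]

lemma castF_opL (i : Fin 3) (v : List (Fin 3) →₀ k₀) :
    castF f (opL k₀ i v) = opL k i (castF f v) := by
  induction v using Finsupp.induction_linear with
  | zero => simp
  | add f g hf hg => rw [map_add, map_add, map_add, map_add, hf, hg]
  | single W c =>
    rw [castF_single, opL_single, opL_single]
    split_ifs
    · rw [map_zero]
    · rw [castF_single]

lemma castF_act (r : RR k₀) (v : List (Fin 3) →₀ k₀) :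
    castF f (act k₀ r v) = act k (jj f r) (castF f v) := by
  induction r using RR_induction generalizing v with
  | halg c =>
    rw [jj_algebraMap, AlgHom.commutes, AlgHom.commutes, Module.algebraMap_end_apply,
      Module.algebraMap_end_apply]
    ext W
    rw [castF_apply, Finsupp.smul_apply, Finsupp.smul_apply, castF_apply]
    simp
  | hgen i => rw [jj_gen, act, act, liftR_gen, liftR_gen, castF_opL]
  | hadd x y hx hy =>
    rw [map_add, map_add, map_add, LinearMap.add_apply, LinearMap.add_apply, map_add, hx, hy]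
  | hmul x y hx hy =>
    rw [map_mul, map_mul, map_mul, Module.End.mul_apply, Module.End.mul_apply, hx, hy]

lemma rho_jj (r : RR k₀) (W : List (Fin 3)) : rho k (jj f r) W = f (rho k₀ r W) := by
  rw [← castF_apply]
  change act k (jj f r) (Finsupp.single [] 1) W = castF f (act k₀ r (Finsupp.single [] 1)) W
  rw [castF_act, castF_single, map_one]

lemma jj_pw (W : List (Fin 3)) : jj f (pw k₀ W) = pw k W := by
  induction W with
  | nil => simp
  | cons i W ih => rw [pw_cons, pw_cons, map_mul, jj_gen, ih]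

end Base

section Pent

variable (k : Type v) [CommRing k]

lemma end_eq_zero (T : Module.End k (RR k)) (h : ∀ W, T (pw k W) = 0) : T = 0 := by
  apply LinearMap.ext
  intro r
  rw [← tau_rho k r, LinearMap.zero_apply]
  generalize rho k r = v
  induction v using Finsupp.induction_linear with
  | zero => simp
  | add f g hf hg => rw [map_add, map_add, hf, hg, add_zero]
  | single W c => rw [tau_single, map_smul, h, smul_zero]

/-- the value at a word of the pentagon operator -/
def Qw (w : FreeMonoid (Fin 2)) : Module.End k (RR k) :=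
  evw (tt k 0 1) (tt k 1 2 + tt k 1 3) w + evw (tt k 0 2 + tt k 1 2) (tt k 2 3) w -
    (evw (tt k 1 2) (tt k 2 3) w + evw (tt k 0 1 + tt k 0 2) (tt k 1 3 + tt k 2 3) w +
      evw (tt k 0 1) (tt k 1 2) w)

lemma cmp_Qw {k₀ : Type w} [CommRing k₀] (f : k₀ →+* k) (w : FreeMonoid (Fin 2)) :
    Cmp f (Qw k₀ w) (Qw k w) := by
  have e : ∀ i j, Cmp f (tt k₀ i j) (tt k i j) := cmp_t
  intro r
  unfold Qw
  simp only [LinearMap.sub_apply, LinearMap.add_apply, map_sub, map_add]
  rw [(Cmp.evw (e 0 1) ((e 1 2).add (e 1 3)) w) r,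
    (Cmp.evw ((e 0 2).add (e 1 2)) (e 2 3) w) r,
    (Cmp.evw (e 1 2) (e 2 3) w) r,
    (Cmp.evw ((e 0 1).add (e 0 2)) ((e 1 3).add (e 2 3)) w) r,
    (Cmp.evw (e 0 1) (e 1 2) w) r]

/-- structure constants -/
def Nz (w : FreeMonoid (Fin 2)) (W V : List (Fin 3)) : k := rho k (Qw k w (pw k W)) V

lemma Nz_map {k₀ : Type w} [CommRing k₀] (f : k₀ →+* k) (w : FreeMonoid (Fin 2))
    (W V : List (Fin 3)) : Nz k w W V = f (Nz k₀ w W V) := by
  unfold Nz
  rw [← rho_jj, cmp_Qw, jj_pw]

lemma Nz_int (w : FreeMonoid (Fin 2)) (W V : List (Fin 3)) :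
    Nz k w W V = ((Nz ℤ w W V : ℤ) : k) := Nz_map k (Int.castRingHom k) w W V

/-- the pentagon operator of a family of coefficients -/
def pentOp (c : FreeMonoid (Fin 2) →₀ k) : Module.End k (RR k) := c.sum (fun w a => a • Qw k w)

lemma pentOp_iff (c : FreeMonoid (Fin 2) →₀ k) :
    pentOp k c = 0 ↔ ∀ W V, c.sum (fun w a => a * ((Nz ℤ w W V : ℤ) : k)) = 0 := by
  have key : ∀ W V, rho k (pentOp k c (pw k W)) V =
      c.sum (fun w a => a * ((Nz ℤ w W V : ℤ) : k)) := by
    intro W V
    unfold pentOp Finsupp.sum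
    rw [LinearMap.sum_apply, map_sum, Finsupp.finset_sum_apply]
    refine Finset.sum_congr rfl (fun w _ => ?_)
    rw [LinearMap.smul_apply, map_smul, Finsupp.smul_apply, smul_eq_mul]
    change c w * Nz k w W V = c w * ((Nz ℤ w W V : ℤ) : k)
    rw [Nz_int]
  constructor
  · intro h W V
    rw [← key, h, LinearMap.zero_apply, map_zero, Finsupp.zero_apply]
  · intro h
    apply end_eq_zero
    intro W
    apply rho_injective k
    ext V
    rw [key, h, map_zero, Finsupp.zero_apply]

end Pent

end MP446Y
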