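import Pool.Agent.Lib.MP_446dfa_ag.helper66.Inj

set_option linter.all false

/-!
# The pentagon relation in characteristic two
-/

noncomputable section

namespace MP446Y

universe v

section Comm

variable {k : Type v} [CommRing k]

/-- evaluation of a non-commutative polynomial -/
def EV {A : Type*} [Ring A] [Algebra k A] (P Q : A) : AA k →ₐ[k] A :=
  MonoidAlgebra.lift k _ _ (evw P Q)

lemma EV_ow {A : Type*} [Ring A] [Algebra k A] (P Q : A) (Y : List (Fin 2)) :
    EV P Q (ow k Y) = (Y.map ![P, Q]).prod := by
  unfold EV ow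
  rw [MonoidAlgebra.lift_of, evw, FreeMonoid.lift_apply, FreeMonoid.toList_ofList]

lemma single_eq (w : FreeMonoid (Fin 2)) (c : k) :
    (MonoidAlgebra.single w c : AA k) = c • ow k (FreeMonoid.toList w) := by
  rw [ow, MonoidAlgebra.of_apply, MonoidAlgebra.smul_single, smul_eq_mul, mul_one]
  rfl

lemma EV_commute {A : Type*} [Ring A] [Algebra k A] {P Q Z : A} (h1 : P * Z = Z * P)
    (h2 : Q * Z = Z * Q) (X : AA k) : EV P Q X * Z = Z * EV P Q X := by
  induction X using MonoidAlgebra.induction_linear with
  | zero => simp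
  | add f g hf hg => rw [map_add, add_mul, mul_add, hf, hg]
  | single w c =>
    rw [single_eq, map_smul, smul_mul_assoc, mul_smul_comm, EV_ow]
    congr 1
    generalize FreeMonoid.toList w = Y
    induction Y with
    | nil => simp
    | cons i Y ih =>
      rw [List.map_cons, List.prod_cons, mul_assoc, ih, ← mul_assoc, ← mul_assoc]
      congr 1
      fin_cases i
      · exact h1
      · exact h2

lemma prod_zero {A : Type*} [Ring A] {P Q : A} (hQ : Q * Q = 0) {Y : List (Fin 2)}
    (h : gd Y = false) : (Y.map ![P, Q]).prod = 0 := by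
  induction Y with
  | nil => simp [gd] at h
  | cons i Y ih =>
    rw [List.map_cons, List.prod_cons]
    by_cases h1 : gd Y = true
    · have h3 : i = 1 ∧ Y.head? = some 1 := by
        by_contra h4
        simp only [gd, h1, Bool.and_true, Bool.not_eq_false', decide_eq_true_eq] at h
        exact h4 h
      obtain ⟨rfl, h4⟩ := h3
      cases Y with
      | nil => simp at h4
      | cons j Y =>
        simp only [List.head?_cons, Option.some.injEq] at h4
        subst h4
        rw [List.map_cons, List.prod_cons, ← mul_assoc]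
        change (Q * Q) * _ = 0
        rw [hQ, zero_mul]
    · rw [ih (by simpa using h1), mul_zero]

lemma EV_zero {A : Type*} [Ring A] [Algebra k A] {P Q : A} (hQ : Q * Q = 0) {X : AA k}
    (hX : ∀ Y, gd Y = true → X.coeff (FreeMonoid.ofList Y) = 0) : EV P Q X = 0 := by
  unfold EV
  rw [MonoidAlgebra.lift_apply]
  refine Finset.sum_eq_zero (fun w hw => ?_)
  have h1 : gd (FreeMonoid.toList w) = false := by
    by_contra h2
    have h3 := hX (FreeMonoid.toList w) (by simpa using h2)
    rw [FreeMonoid.ofList_toList] at h3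
    exact (Finsupp.mem_support_iff.1 hw) h3
  have h4 := prod_zero (P := P) (Q := Q) hQ h1
  change X.coeff w • evw P Q w = 0
  rw [evw, FreeMonoid.lift_apply, h4, smul_zero]

lemma pentOp_eq (X : AA k) : pentOp k X.coeff =
    EV (tt k 0 1) (tt k 1 2 + tt k 1 3) X + EV (tt k 0 2 + tt k 1 2) (tt k 2 3) X -
    (EV (tt k 1 2) (tt k 2 3) X + EV (tt k 0 1 + tt k 0 2) (tt k 1 3 + tt k 2 3) X +
      EV (tt k 0 1) (tt k 1 2) X) := by
  unfold EV pentOp
  simp only [MonoidAlgebra.lift_apply, Finsupp.sum, Qw, smul_sub, smul_add,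
    Finset.sum_add_distrib, Finset.sum_sub_distrib]

/-- number of leading letters `1` -/
def ld : List (Fin 2) → ℕ
  | [] => 0
  | i :: Y => if i = 1 then ld Y + 1 else 0

lemma ld_append {Y : List (Fin 2)} (h : Y ≠ List.replicate Y.length 1) (Z : List (Fin 2)) :
    ld (Y ++ Z) = ld Y := by
  induction Y with
  | nil => simp at h
  | cons i Y ih =>
    rw [List.cons_append]
    simp only [ld]
    split_ifs with h1
    · subst h1
      rw [ih]
      intro h2
      apply h
      rw [List.length_cons, List.replicate_succ, ← h2]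
    · rfl

lemma commute_yy {X : AA k} (h : X * ow k [1, 1] = ow k [1, 1] * X)
    (hp : ∀ n, X.coeff (FreeMonoid.ofList (List.replicate n 1)) = 0) : X = 0 := by
  classical
  by_contra hX
  have hsupp : X.coeff.support.Nonempty := by
    rw [Finsupp.support_nonempty_iff]
    intro h0
    apply hX
    ext w
    rw [h0]
    simp
  obtain ⟨w, hw, hmin⟩ := Finset.exists_min_image X.coeff.support
    (fun w => ld (FreeMonoid.toList w)) hsupp
  have hw0 := Finsupp.mem_support_iff.1 hw
  set Y := FreeMonoid.toList w with hY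
  have hwY : w = FreeMonoid.ofList Y := by rw [hY, FreeMonoid.ofList_toList]
  have hpure : Y ≠ List.replicate Y.length 1 := by
    intro h1
    apply hw0
    rw [hwY, h1]
    exact hp _
  have e1 : (X * ow k [1, 1]).coeff (w * FreeMonoid.ofList [1, 1]) = X.coeff w := by
    rw [ow, MonoidAlgebra.of_apply, MonoidAlgebra.coeff_mul_single_eq_coeff_mul (m₂ := w)]
    · rw [mul_one]
    · intro m' _
      constructor
      · intro h3; exact mul_right_cancel h3
      · rintro rfl; rfl
  rw [h] at e1
  by_cases h3 : ∃ d, FreeMonoid.ofList [1, 1] * d = w * FreeMonoid.ofList [1, 1]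
  · obtain ⟨d, hd⟩ := h3
    rw [ow, MonoidAlgebra.of_apply, MonoidAlgebra.coeff_single_mul_eq_mul_coeff (m₂ := d),
      one_mul] at e1
    · have h4 : d ∈ X.coeff.support := by
        rw [Finsupp.mem_support_iff, e1]; exact hw0
      have h5 := hmin d h4
      have h6 : (1 : Fin 2) :: 1 :: FreeMonoid.toList d = Y ++ [1, 1] := hd
      have h7 := congrArg ld h6
      rw [ld_append hpure] at h7
      simp only [ld, if_true] at h7
      change ld Y ≤ ld (FreeMonoid.toList d) at h5
      omega
    · intro m' _
      rw [← hd]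
      constructor
      · intro h8; exact mul_left_cancel h8
      · rintro rfl; rfl
  · push Not at h3
    rw [ow, MonoidAlgebra.of_apply, MonoidAlgebra.coeff_single_mul_of_forall_mul_ne _ _ h3] at e1
    exact hw0 e1.symm

/-- The theorem in characteristic two. -/
theorem char_two (h2 : (2 : k) = 0) (X : AA k) (hpent : pentOp k X.coeff = 0)
    (hX : ∀ Y, gd Y = true → X.coeff (FreeMonoid.ofList Y) = 0)
    (hp : ∀ n, X.coeff (FreeMonoid.ofList (List.replicate n 1)) = 0) : X = 0 := by
  have hb : tt k 2 3 * tt k 2 3 = 0 := by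
    change oL k (gen k 2) * oL k (gen k 2) = 0
    rw [← oL_mul, gen_two_sq]
    unfold oL
    rw [map_zero]
  have hu : tt k 1 2 * tt k 1 2 = 0 := by
    change oL k (gen k 1) * oL k (gen k 1) = 0
    rw [← oL_mul, gen_one_sq]
    unfold oL
    rw [map_zero]
  rw [pentOp_eq, EV_zero hb hX, EV_zero hb hX, EV_zero hu hX, add_zero, zero_add, add_zero,
    sub_eq_zero] at hpent
  have e1 : EV (tt k 0 1) (tt k 1 2 + tt k 1 3) X = eps k X := rfl
  have c1 : eps k X * oL k (gen k 2) = oL k (gen k 2) * eps k X := by
    rw [← e1]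
    exact EV_commute (r1 k) (s12 k).symm X
  have c2 : eps k X * oL k (gen k 1) = oL k (gen k 1) * eps k X := by
    rw [← e1, hpent]
    exact EV_commute (s7 k).symm (s8 k).symm X
  have c3 : eps k X * oL k (ss k) = oL k (ss k) * eps k X := by
    have e2 : oL k (ss k) = oL k (gen k 1) * oL k (gen k 2) + oL k (gen k 2) * oL k (gen k 1) := by
      rw [ss, oL_add, oL_mul, oL_mul]
    rw [e2, mul_add, add_mul, ← mul_assoc, ← mul_assoc, c1, c2, mul_assoc, mul_assoc, c1, c2,
      mul_assoc, mul_assoc]
  have e3 : eps k (ow k [1, 1]) = oL k (ss k) := by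
    rw [eps_ow, ← oW_sq h2]
    simp [opW]
  apply commute_yy _ hp
  rw [← sub_eq_zero]
  apply eps_eq_zero h2
  rw [map_sub, map_mul, map_mul, e3, c3, sub_self]

end Comm

end MP446Y
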