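import Pool.Agent.Lib.MP_446dfa_ag.helper66.Lead

set_option linter.all false

/-!
# Decomposition of the free algebra on `a`, `W` in characteristic two
-/

noncomputable section

namespace MP446Y

universe v

section Dec

variable (k : Type v) [CommRing k]

/-- the free algebra on two letters -/
abbrev AA : Type v := MonoidAlgebra k (FreeMonoid (Fin 2))

/-- the word `Y` as an element of the free algebra -/
def ow (Y : List (Fin 2)) : AA k := MonoidAlgebra.of k (FreeMonoid (Fin 2)) (FreeMonoid.ofList Y)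

/-- a letter -/
def lt (i : Fin 2) : AA k := ow k [i]

variable {k}

@[simp] lemma ow_nil : ow k [] = 1 := map_one _

lemma ow_append (Y Y' : List (Fin 2)) : ow k (Y ++ Y') = ow k Y * ow k Y' := by
  unfold ow
  rw [FreeMonoid.ofList_append, map_mul]

lemma ow_cons (i : Fin 2) (Y : List (Fin 2)) : ow k (i :: Y) = lt k i * ow k Y := by
  rw [lt, ← ow_append]; rfl

lemma ow_coeff (Y Y' : List (Fin 2)) :
    (ow k Y).coeff (FreeMonoid.ofList Y') = if Y = Y' then 1 else 0 := by
  classical
  unfold ow
  rw [MonoidAlgebra.of_apply, MonoidAlgebra.coeff_single, Finsupp.single_apply]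
  by_cases h : Y = Y'
  · rw [if_pos h, if_pos (by rw [h])]
  · rw [if_neg h, if_neg (fun h2 => h (FreeMonoid.ofList.injective h2))]

/-- no two consecutive letters `1` -/
def gd : List (Fin 2) → Bool
  | [] => true
  | i :: Y => !(i = 1 ∧ Y.head? = some 1) && gd Y

/-- no two consecutive letters `1`, and the last letter is not `1` -/
def gd' (Y : List (Fin 2)) : Prop := gd Y = true ∧ Y.getLast? ≠ some 1

/-- `Pw Y = Y(ad a, ad W)(W²)` -/
def Pw : List (Fin 2) → AA k
  | [] => lt k 1 * lt k 1
  | i :: Y => lt k i * Pw Y - Pw Y * lt k i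

variable (k)
/-- span of the words of length at most `n` -/
def Fil (n : ℕ) : Submodule k (AA k) := Submodule.span k {X | ∃ Y : List (Fin 2), Y.length ≤ n ∧ X = ow k Y}

/-- the decomposable elements -/
def DecS (n : ℕ) : Submodule k (AA k) :=
  Submodule.span k ({X | ∃ Y : List (Fin 2), gd Y = true ∧ Y.length ≤ n ∧ X = ow k Y} ∪
    {X | ∃ (Y : List (Fin 2)) (m : ℕ) (X' : AA k), gd' Y ∧ X' ∈ Fil k m ∧ Y.length + 2 + m ≤ n ∧
      X = Pw Y * X'})

variable {k}

lemma Fil_mono {m n : ℕ} (h : m ≤ n) : Fil k m ≤ Fil k n := by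
  apply Submodule.span_mono
  rintro X ⟨Y, h1, rfl⟩
  exact ⟨Y, h1.trans h, rfl⟩

lemma ow_mem_Fil {n : ℕ} {Y : List (Fin 2)} (h : Y.length ≤ n) : ow k Y ∈ Fil k n :=
  Submodule.subset_span ⟨Y, h, rfl⟩

lemma Fil_mul {m n : ℕ} {X X' : AA k} (h : X ∈ Fil k m) (h' : X' ∈ Fil k n) :
    X * X' ∈ Fil k (m + n) := by
  refine Submodule.span_induction (p := fun X _ => X * X' ∈ Fil k (m + n)) ?_ ?_ ?_ ?_ h
  · rintro r ⟨W, h1, rfl⟩
    refine Submodule.span_induction (p := fun s _ => ow k W * s ∈ Fil k (m + n)) ?_ ?_ ?_ ?_ h'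
    · rintro s ⟨V, h2, rfl⟩
      rw [← ow_append]
      apply ow_mem_Fil
      rw [List.length_append]
      omega
    · simp
    · intro x y _ _ hx hy
      rw [mul_add]; exact Submodule.add_mem _ hx hy
    · intro c x _ hx
      rw [mul_smul_comm]; exact Submodule.smul_mem _ _ hx
  · simp
  · intro x y _ _ hx hy
    rw [add_mul]; exact Submodule.add_mem _ hx hy
  · intro c x _ hx
    rw [smul_mul_assoc]; exact Submodule.smul_mem _ _ hx

lemma lt_mem_Fil (i : Fin 2) : lt k i ∈ Fil k 1 := ow_mem_Fil (by simp)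

lemma Pw_mem_Fil (Y : List (Fin 2)) : (Pw Y : AA k) ∈ Fil k (Y.length + 2) := by
  induction Y with
  | nil =>
    have h := Fil_mul (lt_mem_Fil (k := k) 1) (lt_mem_Fil (k := k) 1)
    exact h
  | cons i Y ih =>
    have h1 := Fil_mul (lt_mem_Fil i) ih
    have h2 := Fil_mul ih (lt_mem_Fil i)
    have e : 1 + (Y.length + 2) = (i :: Y).length + 2 := by simp; omega
    have e2 : Y.length + 2 + 1 = (i :: Y).length + 2 := by simp
    rw [e] at h1
    rw [e2] at h2
    exact Submodule.sub_mem _ h1 h2

lemma ow_mem_DecS {n : ℕ} {Y : List (Fin 2)} (h1 : gd Y = true) (h2 : Y.length ≤ n) :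
    ow k Y ∈ DecS k n := Submodule.subset_span (Or.inl ⟨Y, h1, h2, rfl⟩)

lemma Pw_mul_mem_DecS {n m : ℕ} {Y : List (Fin 2)} {X' : AA k} (h1 : gd' Y) (h2 : X' ∈ Fil k m)
    (h3 : Y.length + 2 + m ≤ n) : Pw Y * X' ∈ DecS k n :=
  Submodule.subset_span (Or.inr ⟨Y, m, X', h1, h2, h3, rfl⟩)

lemma gd'_nil : gd' [] := ⟨rfl, by simp⟩

lemma gd'_zero {Y : List (Fin 2)} (h : gd' Y) : gd' (0 :: Y) := by
  refine ⟨by simp [gd, h.1], ?_⟩
  cases Y with
  | nil => simp
  | cons i Y => simpa [List.getLast?_cons] using h.2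

lemma gd'_one {Y : List (Fin 2)} (h : gd' (0 :: Y)) : gd' (1 :: 0 :: Y) := by
  refine ⟨by simp [gd, h.1]; exact h.1, ?_⟩
  simpa [List.getLast?_cons] using h.2

lemma gd'_tail {i : Fin 2} {Y : List (Fin 2)} (h : gd' (i :: Y)) (hi : i = 1) : gd' Y := by
  subst hi
  cases Y with
  | nil => exact gd'_nil
  | cons j Y =>
    obtain ⟨h1, h2⟩ := h
    refine ⟨?_, ?_⟩
    · simp only [gd, Bool.and_eq_true] at h1 ⊢
      exact h1.2
    · simpa [List.getLast?_cons] using h2

lemma lt_mul_DecS (h2 : (2 : k) = 0) (i : Fin 2) {n : ℕ} {X : AA k} (h : X ∈ DecS k n) :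
    lt k i * X ∈ DecS k (n + 1) := by
  have add_self : ∀ Z : AA k, Z + Z = 0 := by
    intro Z
    rw [← two_smul k Z, h2, zero_smul]
  have neg_self : ∀ Z : AA k, -Z = Z := fun Z => neg_eq_of_add_eq_zero_left (add_self Z)
  refine Submodule.span_induction (p := fun X _ => lt k i * X ∈ DecS k (n + 1)) ?_ ?_ ?_ ?_ h
  · rintro X (⟨Y, g1, g2, rfl⟩ | ⟨Y, m, X', g1, g2, g3, rfl⟩)
    · rw [← ow_cons]
      by_cases hi : i = 1 ∧ Y.head? = some 1
      · obtain ⟨rfl, h4⟩ := hi
        cases Y with
        | nil => simp at h4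
        | cons j Y =>
          simp only [List.head?_cons, Option.some.injEq] at h4
          subst h4
          have e : ow k (1 :: 1 :: Y) = Pw [] * ow k Y := by
            rw [ow_cons, ow_cons, ← mul_assoc]; rfl
          rw [e]
          apply Pw_mul_mem_DecS gd'_nil (ow_mem_Fil (le_refl _))
          simp only [List.length_cons, List.length_nil] at g2 ⊢
          omega
      · apply ow_mem_DecS
        · simp only [gd, Bool.and_eq_true, Bool.not_eq_true', decide_eq_false_iff_not]
          exact ⟨hi, g1⟩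
        · simp only [List.length_cons]; omega
    · have e : lt k i * (Pw Y * X') = Pw (i :: Y) * X' + Pw Y * (lt k i * X') := by
        change _ = (lt k i * Pw Y - Pw Y * lt k i) * X' + _
        rw [sub_mul, mul_assoc, mul_assoc]
        abel
      rw [e]
      refine Submodule.add_mem _ ?_ ?_
      · by_cases hi : i = 0
        · subst hi
          apply Pw_mul_mem_DecS (gd'_zero g1) g2
          simp only [List.length_cons]; omega
        · have hi : i = 1 := by omega
          subst hi
          cases Y with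
          | nil =>
            have e2 : (Pw [1] : AA k) = 0 := by
              change lt k 1 * (lt k 1 * lt k 1) - (lt k 1 * lt k 1) * lt k 1 = 0
              rw [mul_assoc, sub_self]
            rw [e2, zero_mul]
            exact Submodule.zero_mem _
          | cons j Y =>
            by_cases hj : j = 0
            · subst hj
              apply Pw_mul_mem_DecS (gd'_one g1) g2
              simp only [List.length_cons] at g3 ⊢; omega
            · have hj : j = 1 := by omega
              subst hj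
              have e2 : (Pw (1 :: 1 :: Y) : AA k) * X' =
                  Pw [] * (Pw Y * X') + Pw Y * (Pw [] * X') := by
                change (lt k 1 * (lt k 1 * Pw Y - Pw Y * lt k 1) -
                  (lt k 1 * Pw Y - Pw Y * lt k 1) * lt k 1) * X' =
                  (lt k 1 * lt k 1) * (Pw Y * X') + Pw Y * ((lt k 1 * lt k 1) * X')
                have e3 : (lt k 1 * (lt k 1 * Pw Y - Pw Y * lt k 1) -
                  (lt k 1 * Pw Y - Pw Y * lt k 1) * lt k 1) * X' =
                  (lt k 1 * lt k 1) * (Pw Y * X') + Pw Y * ((lt k 1 * lt k 1) * X') -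
                  (lt k 1 * (Pw Y * (lt k 1 * X')) + lt k 1 * (Pw Y * (lt k 1 * X'))) := by
                  simp only [mul_sub, sub_mul, mul_assoc]
                  abel
                rw [e3, add_self, sub_zero]
              rw [e2]
              have g5 : gd' Y := gd'_tail g1 rfl
              refine Submodule.add_mem _ ?_ ?_
              · apply Pw_mul_mem_DecS gd'_nil (Fil_mul (Pw_mem_Fil Y) g2)
                simp only [List.length_cons, List.length_nil] at g3 ⊢; omega
              · apply Pw_mul_mem_DecS g5 (Fil_mul (Pw_mem_Fil []) g2)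
                simp only [List.length_cons, List.length_nil] at g3 ⊢; omega
      · apply Pw_mul_mem_DecS g1 (Fil_mul (lt_mem_Fil i) g2)
        omega
  · simp
  · intro x y _ _ hx hy
    rw [mul_add]; exact Submodule.add_mem _ hx hy
  · intro c x _ hx
    rw [mul_smul_comm]; exact Submodule.smul_mem _ _ hx

lemma Fil_le_DecS (h2 : (2 : k) = 0) (n : ℕ) : Fil k n ≤ DecS k n := by
  have key : ∀ Y : List (Fin 2), ow k Y ∈ DecS k Y.length := by
    intro Y
    induction Y with
    | nil => exact ow_mem_DecS rfl (le_refl _)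
    | cons i Y ih =>
      rw [ow_cons]
      exact lt_mul_DecS h2 i ih
  have mono : ∀ m n, m ≤ n → DecS k m ≤ DecS k n := by
    intro m n h
    apply Submodule.span_mono
    rintro X (⟨Y, g1, g2, rfl⟩ | ⟨Y, m', X', g1, g2, g3, rfl⟩)
    · exact Or.inl ⟨Y, g1, g2.trans h, rfl⟩
    · exact Or.inr ⟨Y, m', X', g1, g2, g3.trans h, rfl⟩
  apply Submodule.span_le.2
  rintro X ⟨Y, h1, rfl⟩
  exact mono _ _ h1 (key Y)

variable (k)
/-- the elements spanned by words of length at most `n - 2` -/
def Low (n : ℕ) : Submodule k (AA k) :=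
  Submodule.span k {X | ∃ Y : List (Fin 2), Y.length + 2 ≤ n ∧ X = ow k Y}
variable {k}

lemma Fil_le_Low {m n : ℕ} (h : m + 2 ≤ n) : Fil k m ≤ Low k n := by
  apply Submodule.span_mono
  rintro X ⟨Y, h1, rfl⟩
  exact ⟨Y, by omega, rfl⟩

lemma DecS_repr {n : ℕ} {X : AA k} (h : X ∈ DecS k n) :
    ∃ (c : List (Fin 2) →₀ k) (f : List (Fin 2) →₀ AA k),
      (∀ Y ∈ c.support, gd Y = true) ∧ (∀ Y ∈ f.support, gd' Y) ∧ (∀ Y, f Y ∈ Low k n) ∧
      X = c.sum (fun Y a => a • ow k Y) + f.sum (fun Y X' => Pw Y * X') := by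
  classical
  refine Submodule.span_induction (p := fun X _ => ∃ (c : List (Fin 2) →₀ k)
    (f : List (Fin 2) →₀ AA k),
      (∀ Y ∈ c.support, gd Y = true) ∧ (∀ Y ∈ f.support, gd' Y) ∧ (∀ Y, f Y ∈ Low k n) ∧
      X = c.sum (fun Y a => a • ow k Y) + f.sum (fun Y X' => Pw Y * X')) ?_ ?_ ?_ ?_ h
  · rintro X (⟨Y, g1, g2, rfl⟩ | ⟨Y, m, X', g1, g2, g3, rfl⟩)
    · refine ⟨Finsupp.single Y 1, 0, ?_, by simp, by simp, ?_⟩
      · intro Y' hY'
        have := Finsupp.support_single_subset hY'
        simp only [Finset.mem_singleton] at this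
        rw [this]; exact g1
      · rw [Finsupp.sum_single_index (by simp)]
        simp
    · refine ⟨0, Finsupp.single Y X', by simp, ?_, ?_, ?_⟩
      · intro Y' hY'
        have := Finsupp.support_single_subset hY'
        simp only [Finset.mem_singleton] at this
        rw [this]; exact g1
      · intro Y'
        rw [Finsupp.single_apply]
        split_ifs
        · exact Fil_le_Low (by omega) g2
        · exact Submodule.zero_mem _
      · rw [Finsupp.sum_single_index (by simp)]
        simp
  · exact ⟨0, 0, by simp, by simp, by simp, by simp⟩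
  · rintro x y _ _ ⟨c, f, h1, h2, h3, rfl⟩ ⟨c', f', h1', h2', h3', rfl⟩
    refine ⟨c + c', f + f', ?_, ?_, ?_, ?_⟩
    · intro Y hY
      rcases Finset.mem_union.1 (Finsupp.support_add hY) with h | h
      · exact h1 Y h
      · exact h1' Y h
    · intro Y hY
      rcases Finset.mem_union.1 (Finsupp.support_add hY) with h | h
      · exact h2 Y h
      · exact h2' Y h
    · intro Y
      rw [Finsupp.add_apply]
      exact Submodule.add_mem _ (h3 Y) (h3' Y)
    · rw [Finsupp.sum_add_index' (by simp) (by intro a b b'; rw [add_smul]),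
        Finsupp.sum_add_index' (by simp) (by intro a b b'; rw [mul_add])]
      abel
  · rintro a x _ ⟨c, f, h1, h2, h3, rfl⟩
    refine ⟨a • c, a • f, ?_, ?_, ?_, ?_⟩
    · intro Y hY
      exact h1 Y (Finsupp.support_smul hY)
    · intro Y hY
      exact h2 Y (Finsupp.support_smul hY)
    · intro Y
      rw [Finsupp.smul_apply]
      exact Submodule.smul_mem _ _ (h3 Y)
    · rw [smul_add, Finsupp.sum_smul_index' (by simp), Finsupp.sum_smul_index' (by simp),
        Finsupp.smul_sum, Finsupp.smul_sum]
      simp only [smul_assoc, mul_smul_comm]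

end Dec

end MP446Y
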