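import Pool.Agent.Lib.MP_446dfa_ag.helper66.Base

set_option linter.all false

/-!
# The filtration of `R` by the number of letters `u`, and leading terms (characteristic two)
-/

noncomputable section

namespace MP446Y

universe v

section Filt

variable (k : Type v) [CommRing k]

/-- the number of letters `u` -/
def cu (W : List (Fin 3)) : ℕ := W.count 1

@[simp] lemma cu_nil : cu [] = 0 := rfl
lemma cu_append (V W : List (Fin 3)) : cu (V ++ W) = cu V + cu W := List.count_append
lemma cu_cons_one (W : List (Fin 3)) : cu (1 :: W) = cu W + 1 := by simp [cu]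
lemma cu_cons_zero (W : List (Fin 3)) : cu (0 :: W) = cu W := by simp [cu]
lemma cu_cons_two (W : List (Fin 3)) : cu (2 :: W) = cu W := by
  simp [cu]
lemma cu_cons_le (i : Fin 3) (W : List (Fin 3)) : cu W ≤ cu (i :: W) := by
  simp [cu, List.count_cons]

/-- the span of the words with at least `j` letters `u` -/
def U (j : ℕ) : Submodule k (RR k) := Submodule.span k {r | ∃ W, j ≤ cu W ∧ r = pw k W}

/-- the span of the non-empty words whose tail has at least `j` letters `u` -/
def N (j : ℕ) : Submodule k (RR k) :=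
  Submodule.span k {r | ∃ i W, j ≤ cu W ∧ r = pw k (i :: W)}

variable {k}

lemma pw_mem_U {j : ℕ} {W : List (Fin 3)} (h : j ≤ cu W) : pw k W ∈ U k j :=
  Submodule.subset_span ⟨W, h, rfl⟩

lemma pw_mem_N {j : ℕ} {i : Fin 3} {W : List (Fin 3)} (h : j ≤ cu W) : pw k (i :: W) ∈ N k j :=
  Submodule.subset_span ⟨i, W, h, rfl⟩

lemma U_mono {i j : ℕ} (h : i ≤ j) : U k j ≤ U k i := by
  apply Submodule.span_mono
  rintro r ⟨W, h1, rfl⟩
  exact ⟨W, h.trans h1, rfl⟩

lemma N_mono {i j : ℕ} (h : i ≤ j) : N k j ≤ N k i := by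
  apply Submodule.span_mono
  rintro r ⟨l, W, h1, rfl⟩
  exact ⟨l, W, h.trans h1, rfl⟩

lemma N_le_U (j : ℕ) : N k j ≤ U k j := by
  apply Submodule.span_mono
  rintro r ⟨l, W, h1, rfl⟩
  exact ⟨l :: W, h1.trans (cu_cons_le l W), rfl⟩

lemma mem_U_zero (r : RR k) : r ∈ U k 0 := by
  rw [← tau_rho k r]
  generalize rho k r = v
  induction v using Finsupp.induction_linear with
  | zero => simp
  | add f g hf hg => rw [map_add]; exact Submodule.add_mem _ hf hg
  | single W c => rw [tau_single]; exact Submodule.smul_mem _ _ (pw_mem_U (Nat.zero_le _))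

lemma U_mul {i j : ℕ} {r s : RR k} (hr : r ∈ U k i) (hs : s ∈ U k j) : r * s ∈ U k (i + j) := by
  refine Submodule.span_induction (p := fun r _ => r * s ∈ U k (i + j)) ?_ ?_ ?_ ?_ hr
  · rintro r ⟨W, h1, rfl⟩
    refine Submodule.span_induction (p := fun s _ => pw k W * s ∈ U k (i + j)) ?_ ?_ ?_ ?_ hs
    · rintro s ⟨V, h2, rfl⟩
      rw [← pw_append]
      apply pw_mem_U
      rw [cu_append]
      omega
    · simp
    · intro x y _ _ hx hy
      rw [mul_add]; exact Submodule.add_mem _ hx hy
    · intro c x _ hx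
      rw [mul_smul_comm]; exact Submodule.smul_mem _ _ hx
  · simp
  · intro x y _ _ hx hy
    rw [add_mul]; exact Submodule.add_mem _ hx hy
  · intro c x _ hx
    rw [smul_mul_assoc]; exact Submodule.smul_mem _ _ hx

lemma N_mul_U {i j : ℕ} {r s : RR k} (hr : r ∈ N k i) (hs : s ∈ U k j) :
    r * s ∈ N k (i + j) := by
  refine Submodule.span_induction (p := fun r _ => r * s ∈ N k (i + j)) ?_ ?_ ?_ ?_ hr
  · rintro r ⟨l, W, h1, rfl⟩
    refine Submodule.span_induction (p := fun s _ => pw k (l :: W) * s ∈ N k (i + j)) ?_ ?_ ?_ ?_ hs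
    · rintro s ⟨V, h2, rfl⟩
      rw [← pw_append]
      apply pw_mem_N
      change i + j ≤ cu (W ++ V)
      rw [cu_append]
      omega
    · simp
    · intro x y _ _ hx hy
      rw [mul_add]; exact Submodule.add_mem _ hx hy
    · intro c x _ hx
      rw [mul_smul_comm]; exact Submodule.smul_mem _ _ hx
  · simp
  · intro x y _ _ hx hy
    rw [add_mul]; exact Submodule.add_mem _ hx hy
  · intro c x _ hx
    rw [smul_mul_assoc]; exact Submodule.smul_mem _ _ hx

lemma gen_mem_N (i : Fin 3) : gen k i ∈ N k 0 := by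
  have h := pw_mem_N (k := k) (j := 0) (i := i) (W := []) (Nat.zero_le _)
  rwa [pw_cons, pw_nil, mul_one] at h

lemma gen_one_mem_U : gen k 1 ∈ U k 1 := by
  have h := pw_mem_U (k := k) (j := 1) (W := [1]) (by rw [cu_cons_one]; simp)
  rwa [pw_cons, pw_nil, mul_one] at h

lemma gen_mul_mem_N {i : Fin 3} {j : ℕ} {r : RR k} (h : r ∈ U k j) : gen k i * r ∈ N k j := by
  have := N_mul_U (gen_mem_N i) h
  rwa [zero_add] at this

lemma U_mul_left {j : ℕ} {r s : RR k} (hs : s ∈ U k j) : r * s ∈ U k j := by
  have := U_mul (mem_U_zero r) hs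
  rwa [zero_add] at this

lemma U_mul_right {j : ℕ} {r s : RR k} (hr : r ∈ U k j) : r * s ∈ U k j := by
  have := U_mul hr (mem_U_zero s)
  rwa [add_zero] at this

lemma rho_U {j : ℕ} {r : RR k} (h : r ∈ U k j) {W : List (Fin 3)} (hW : cu W < j) :
    rho k r W = 0 := by
  classical
  refine Submodule.span_induction (p := fun r _ => rho k r W = 0) ?_ ?_ ?_ ?_ h
  · rintro r ⟨V, h1, rfl⟩
    rw [rho_pw]
    split_ifs
    · rw [Finsupp.single_apply, if_neg]
      rintro rfl
      omega
    · rfl
  · simp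
  · intro x y _ _ hx hy
    rw [map_add, Finsupp.add_apply, hx, hy, add_zero]
  · intro c x _ hx
    rw [map_smul, Finsupp.smul_apply, hx, smul_zero]

lemma rho_N {j : ℕ} {r : RR k} (h : r ∈ N k j) {i : Fin 3} {W : List (Fin 3)} (hW : cu W < j) :
    rho k r (i :: W) = 0 := by
  classical
  refine Submodule.span_induction (p := fun r _ => rho k r (i :: W) = 0) ?_ ?_ ?_ ?_ h
  · rintro r ⟨l, V, h1, rfl⟩
    rw [rho_pw]
    split_ifs
    · rw [Finsupp.single_apply, if_neg]
      intro h2
      obtain ⟨-, rfl⟩ := List.cons.inj h2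
      omega
    · rfl
  · simp
  · intro x y _ _ hx hy
    rw [map_add, Finsupp.add_apply, hx, hy, add_zero]
  · intro c x _ hx
    rw [map_smul, Finsupp.smul_apply, hx, smul_zero]

/-- coefficients of a product with a word -/
lemma rho_pw_mul (A : List (Fin 3)) (v : RR k) (W : List (Fin 3)) (h : Rd (A ++ W) = true) :
    rho k (pw k A * v) (A ++ W) = rho k v W := by
  induction A with
  | nil => simp
  | cons i A ih =>
    rw [pw_cons, mul_assoc, rho_gen_mul]
    change opL k i _ (i :: (A ++ W)) = _
    rw [opL_apply]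
    simp only [List.cons_append, Rd, Bool.and_eq_true, Bool.not_eq_true'] at h
    simp only [h.1, and_self, if_true]
    exact ih h.2

lemma rho_pw_mul_ne (A : List (Fin 3)) (v : RR k) (Z : List (Fin 3))
    (h : rho k (pw k A * v) Z ≠ 0) : ∃ W, Z = A ++ W ∧ rho k v W ≠ 0 := by
  induction A generalizing Z with
  | nil => exact ⟨Z, rfl, by simpa using h⟩
  | cons i A ih =>
    rw [pw_cons, mul_assoc, rho_gen_mul, opL_apply] at h
    cases Z with
    | nil => simp at h
    | cons j Z =>
      simp only at h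
      split_ifs at h with h1
      · obtain ⟨W, rfl, h3⟩ := ih Z h
        exact ⟨W, by rw [h1.1]; rfl, h3⟩
      · simp at h

lemma rho_ne_Rd (r : RR k) (Z : List (Fin 3)) (h : rho k r Z ≠ 0) : Rd Z = true := by
  classical
  by_contra hZ
  apply h
  rw [← tau_rho k r]
  generalize rho k r = v
  induction v using Finsupp.induction_linear with
  | zero => simp
  | add f g hf hg => rw [map_add, map_add, Finsupp.add_apply, hf, hg, add_zero]
  | single W c =>
    rw [tau_single, map_smul, Finsupp.smul_apply, rho_pw]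
    split_ifs with h1
    · rw [Finsupp.single_apply, if_neg, smul_zero]
      rintro rfl
      exact hZ h1
    · simp

end Filt

end MP446Y
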