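import Pool.Agent.Lib.MP_446dfa_ag.helper66.Main

set_option linter.all false

/-!
# Compositions with parts at least two
-/

noncomputable section

namespace MP446Y

open MP446

universe u v

attribute [local instance 100] LieRing.ofAssociativeRing

/-- The word `x^(k₁-1) y x^(k₂-1) y ⋯ x^(k_r-1) y` attached to the list `(k₁, …, k_r)`; the letter
`x` is `0` and the letter `y` is `1`. -/
def zword (l : List ℕ) : List (Fin 2) := l.flatMap (fun k => List.replicate (k - 1) 0 ++ [1])

lemma zword_cons (k : ℕ) (l : List ℕ) :
    zword (k :: l) = List.replicate (k - 1) 0 ++ 1 :: zword l := by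
  simp [zword, List.flatMap_cons]

lemma zword_length {l : List ℕ} (h : ∀ k ∈ l, 1 ≤ k) : (zword l).length = l.sum := by
  induction l with
  | nil => simp [zword]
  | cons k l ih =>
    rw [zword_cons, List.length_append, List.length_replicate, List.length_cons,
      ih (fun j hj => h j (List.mem_cons_of_mem _ hj)), List.sum_cons]
    have := h k List.mem_cons_self
    omega

lemma exists_zword (Y : List (Fin 2)) (j : ℕ) (hg : gd Y = true) (hl : Y.getLast? = some 1)
    (hj : 1 ≤ j ∨ Y.head? = some 0) :
    ∃ l : List ℕ, l ≠ [] ∧ (∀ k ∈ l, 2 ≤ k) ∧ List.replicate j 0 ++ Y = zword l := by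
  induction Y generalizing j with
  | nil => simp at hl
  | cons a Y ih =>
    have ha : a = 0 ∨ a = 1 := by fin_cases a <;> simp
    rw [gd_cons] at hg
    rcases ha with rfl | rfl
    · cases Y with
      | nil => simp at hl
      | cons b Y =>
        obtain ⟨l, h1, h2, h3⟩ := ih (j + 1) hg.2 (by simpa using hl) (Or.inl (by omega))
        refine ⟨l, h1, h2, ?_⟩
        rw [← h3, List.replicate_succ', List.append_assoc]
        rfl
    · have hj1 : 1 ≤ j := by
        rcases hj with hj | hj
        · exact hj
        · simp at hj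
      cases Y with
      | nil =>
        refine ⟨[j + 1], by simp, by simpa using hj1, ?_⟩
        rw [zword_cons]
        rfl
      | cons b Y =>
        have hb : b = 0 ∨ b = 1 := by fin_cases b <;> simp
        rcases hb with rfl | rfl
        · obtain ⟨l, h1, h2, h3⟩ := ih 0 hg.2 (by simpa using hl) (Or.inr rfl)
          refine ⟨(j + 1) :: l, by simp, ?_, ?_⟩
          · intro k hk
            rcases List.mem_cons.1 hk with rfl | hk
            · omega
            · exact h2 k hk
          · rw [zword_cons, ← h3]
            rfl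
        · exfalso
          exact hg.1 ⟨rfl, rfl⟩

/-- add one to the first entry -/
def incHead : List ℕ → List ℕ
  | [] => []
  | k :: l => (k + 1) :: l

/-- the lists of natural numbers at least two with a given sum -/
def comps : ℕ → List (List ℕ)
  | 0 => [[]]
  | 1 => []
  | (n + 2) => (comps (n + 1)).map incHead ++ (comps n).map (fun l => 2 :: l)

lemma comps_length (n : ℕ) : (comps (n + 1)).length = Nat.fib n := by
  induction n using Nat.strong_induction_on with
  | _ n ih =>
    match n with
    | 0 => rfl
    | 1 => rfl
    | (n + 2) =>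
      have e : comps (n + 2 + 1) =
        (comps (n + 1 + 1)).map incHead ++ (comps (n + 1)).map (fun l => 2 :: l) := rfl
      rw [e, List.length_append, List.length_map, List.length_map, ih n (by omega),
        ih (n + 1) (by omega), Nat.fib_add_two, add_comm]

lemma mem_comps (n : ℕ) (l : List ℕ) (h : ∀ k ∈ l, 2 ≤ k) (hs : l.sum = n) : l ∈ comps n := by
  induction n using Nat.strong_induction_on generalizing l with
  | _ n ih =>
    cases l with
    | nil =>
      simp only [List.sum_nil] at hs
      subst hs
      simp [comps]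
    | cons k l =>
      have hk := h k List.mem_cons_self
      have hl : ∀ j ∈ l, 2 ≤ j := fun j hj => h j (List.mem_cons_of_mem _ hj)
      rw [List.sum_cons] at hs
      obtain ⟨m, rfl⟩ : ∃ m, n = m + 2 := ⟨n - 2, by omega⟩
      rw [comps, List.mem_append, List.mem_map, List.mem_map]
      by_cases h2 : k = 2
      · right
        exact ⟨l, ih m (by omega) l hl (by omega), by rw [h2]⟩
      · left
        refine ⟨(k - 1) :: l, ih (m + 1) (by omega) _ ?_ ?_, ?_⟩
        · intro j hj
          rcases List.mem_cons.1 hj with rfl | hj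
          · omega
          · exact hl j hj
        · rw [List.sum_cons]; omega
        · simp only [incHead]
          congr 1
          omega

section Fin

variable {K : Type u} [Field K]

/-- The coefficient of a word in an element of the free Lie algebra, the latter being embedded in
the algebra of non-commutative polynomials. -/
def coef (ψ : F2 K) (w : List (Fin 2)) : K := (assoc K ψ).coeff (FreeMonoid.ofList w)

lemma coef_add (ψ φ : F2 K) (w : List (Fin 2)) : coef (ψ + φ) w = coef ψ w + coef φ w := by
  unfold coef
  rw [map_add, MonoidAlgebra.coeff_add, Finsupp.add_apply]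

lemma coef_smul (c : K) (ψ : F2 K) (w : List (Fin 2)) : coef (c • ψ) w = c * coef ψ w := by
  unfold coef
  rw [map_smul, MonoidAlgebra.coeff_smul, Finsupp.smul_apply, smul_eq_mul]

lemma coef_zero (w : List (Fin 2)) : coef (0 : F2 K) w = 0 := by
  have := coef_smul (0 : K) (0 : F2 K) w
  rwa [zero_smul, zero_mul] at this

variable (K) in
/-- The homogeneous part of degree `n` of `grt₁`: the elements of the free Lie algebra which
satisfy the defining relations of `grt₁` and whose coefficients at all words of length different
from `n` vanish. -/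
def grt (n : ℕ) : Submodule K (F2 K) where
  carrier := {ψ | IsGRT ψ ∧ ∀ w : List (Fin 2), w.length ≠ n → coef ψ w = 0}
  add_mem' := by
    rintro ψ φ ⟨h1, h2⟩ ⟨h3, h4⟩
    refine ⟨⟨?_, ?_, ?_, ?_⟩, fun w hw => ?_⟩
    · rw [map_add, h1.antisymm, h3.antisymm, neg_add]
    · have := congrArg₂ (· + ·) h1.cycle h3.cycle
      simp only [add_zero] at this
      rw [← this, map_add, map_add]
      abel
    · have := congrArg₂ (· + ·) h1.hexagon h3.hexagon
      simp only [add_zero] at this
      rw [← this, map_add, lie_add, lie_add]
      abel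
    · intro L _ _ t ht
      have e1 := h1.pentagon L t ht
      have e2 := h3.pentagon L t ht
      simp only [map_add]
      rw [add_add_add_comm, e1, e2]
      abel
    · rw [coef_add, h2 w hw, h4 w hw, add_zero]
  zero_mem' := by
    refine ⟨⟨?_, ?_, ?_, ?_⟩, fun w _ => coef_zero w⟩
    · simp
    · simp
    · simp
    · intro L _ _ t ht
      simp
  smul_mem' := by
    rintro c ψ ⟨h1, h2⟩
    refine ⟨⟨?_, ?_, ?_, ?_⟩, fun w hw => ?_⟩
    · rw [map_smul, h1.antisymm, smul_neg]
    · rw [map_smul, map_smul, ← smul_add, ← smul_add, h1.cycle, smul_zero]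
    · rw [map_smul, lie_smul, lie_smul, ← smul_add, h1.hexagon, smul_zero]
    · intro L _ _ t ht
      simp only [map_smul]
      rw [← smul_add, h1.pentagon L t ht, smul_add, smul_add]
    · rw [coef_smul, h2 w hw, mul_zero]

/-- Drinfeld's pentagon relation, one of the defining relations of `grt₁` (the field `pentagon`
of `IsGRT`). -/
def Pentagon (ψ : F2 K) : Prop :=
  ∀ (L : Type u) [LieRing L] [LieAlgebra K L] (t : Fin 4 → Fin 4 → L), InfBraid t →
    ev (t 0 1) (t 1 2 + t 1 3) ψ + ev (t 0 2 + t 1 2) (t 2 3) ψ =
      ev (t 1 2) (t 2 3) ψ + ev (t 0 1 + t 0 2) (t 1 3 + t 2 3) ψ + ev (t 0 1) (t 1 2) ψ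

variable [CharZero K]

theorem eq_zero_of_zword (ψ : F2 K) (hpent : Pentagon ψ)
    (h : ∀ l : List ℕ, l ≠ [] → (∀ k ∈ l, 2 ≤ k) → coef ψ (zword l) = 0) : ψ = 0 := by
  apply eq_zero_of_gd ψ hpent
  intro Y h1 h2 h3
  obtain ⟨l, h4, h5, h6⟩ := exists_zword Y 0 h1 h3 (Or.inr h2)
  have := h l h4 h5
  rw [← h6] at this
  exact this

theorem rank_grt_le (n : ℕ) (hn : 1 ≤ n) : Module.rank K (grt K n) ≤ (Nat.fib (n - 1) : Cardinal) := by
  have hlen : (comps n).length = Nat.fib (n - 1) := by
    have := comps_length (n - 1)
    rwa [Nat.sub_add_cancel hn] at this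
  let f : grt K n →ₗ[K] (Fin (Nat.fib (n - 1)) → K) :=
    { toFun := fun ψ i => coef ψ.1 (zword ((comps n).get (i.cast hlen.symm)))
      map_add' := fun ψ φ => by ext i; exact coef_add _ _ _
      map_smul' := fun c ψ => by ext i; exact coef_smul _ _ _ }
  have hf : Function.Injective f := by
    rw [← LinearMap.ker_eq_bot, LinearMap.ker_eq_bot']
    intro ψ hψ
    apply Subtype.ext
    refine eq_zero_of_zword ψ.1 ψ.2.1.pentagon ?_
    intro l h1 h2
    by_cases hs : l.sum = n
    · have hm := mem_comps n l h2 hs
      obtain ⟨i, hi⟩ := List.mem_iff_get.1 hm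
      have h3 := congrFun hψ (i.cast hlen)
      change coef ψ.1 (zword ((comps n).get ((i.cast hlen).cast hlen.symm))) = 0 at h3
      have e : (i.cast hlen).cast hlen.symm = i := by ext; rfl
      rw [e, hi] at h3
      exact h3
    · apply ψ.2.2
      rw [zword_length (fun k hk => by have := h2 k hk; omega)]
      exact hs
  have h := LinearMap.rank_le_of_injective f hf
  rw [rank_fin_fun] at h
  exact h

end Fin

end MP446Y
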