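import Pool.Agent.Lib.MP_446dfa_ag.helper66.Dec

set_option linter.all false

/-!
# The operators `a` and `W` generate a free algebra (characteristic two)
-/

noncomputable section

namespace MP446Y

universe v

section Inj

variable {k : Type v} [CommRing k]

variable (k)
/-- the evaluation at `a`, `W` -/
def eps : AA k →ₐ[k] Module.End k (RR k) := MonoidAlgebra.lift k _ _ (evw (oA k) (oW k))
variable {k}

lemma eps_ow (Y : List (Fin 2)) : eps k (ow k Y) = (Y.map opW).prod := by
  unfold eps ow
  rw [MonoidAlgebra.lift_of, evw, FreeMonoid.lift_apply, FreeMonoid.toList_ofList]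
  rfl

lemma eps_lt (i : Fin 2) : eps k (lt k i) = opW i := by
  rw [lt, eps_ow]
  simp

lemma eps_ow_apply (Y : List (Fin 2)) : eps k (ow k Y) (gen k 1) = thw Y := by
  induction Y with
  | nil => simp [thw]
  | cons i Y ih =>
    rw [ow_cons, map_mul, Module.End.mul_apply, ih, eps_lt]
    rfl

lemma self_add (h2 : (2 : k) = 0) (r : RR k) : r + r = 0 := by
  rw [← two_smul k r, h2, zero_smul]

lemma neg_self (h2 : (2 : k) = 0) (r : RR k) : -r = r :=
  neg_eq_of_add_eq_zero_left (self_add h2 r)

lemma sub_eq (h2 : (2 : k) = 0) (r s : RR k) : r - s = r + s := by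
  rw [sub_eq_add_neg, neg_self h2]

lemma oC_sq (h2 : (2 : k) = 0) (r : RR k) : oC k (oC k r) = 0 := by
  have hs : oC k (gen k 1 * gen k 2 - gen k 2 * gen k 1) = 0 := by
    rw [map_sub, oC_mul, oC_mul, oC_u, oC_b]
    have e : gen k 1 * -(gen k 1 * gen k 2 - gen k 2 * gen k 1) +
        (gen k 1 * gen k 2 - gen k 2 * gen k 1) * gen k 2 -
        (gen k 2 * (gen k 1 * gen k 2 - gen k 2 * gen k 1) +
          -(gen k 1 * gen k 2 - gen k 2 * gen k 1) * gen k 1) =
        -(gen k 1 * gen k 1) * gen k 2 + gen k 1 * (gen k 2 * gen k 2)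
          + (gen k 2 * gen k 2) * gen k 1 - gen k 2 * (gen k 1 * gen k 1) +
          (gen k 1 * gen k 2 * gen k 1 + gen k 1 * gen k 2 * gen k 1) -
          (gen k 2 * gen k 1 * gen k 2 + gen k 2 * gen k 1 * gen k 2) := by
      simp only [mul_sub, sub_mul, mul_neg, neg_mul, mul_assoc]
      abel
    rw [e, gen_one_sq, gen_two_sq, self_add h2, self_add h2]
    simp
  induction r using RR_induction with
  | halg c => rw [lbz_C.alg, map_zero]
  | hgen i =>
    fin_cases i
    · change oC k (oC k (gen k 0)) = 0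
      rw [oC_x, hs]
    · change oC k (oC k (gen k 1)) = 0
      rw [oC_u, hs]
    · change oC k (oC k (gen k 2)) = 0
      rw [oC_b, map_neg, hs, neg_zero]
  | hadd x y hx hy => rw [map_add, map_add, hx, hy, add_zero]
  | hmul x y hx hy =>
    rw [oC_mul, map_add, oC_mul, oC_mul, hx, hy, mul_zero, zero_mul, zero_add, add_zero,
      self_add h2]

lemma oW_sq (h2 : (2 : k) = 0) : oW k * oW k = oL k (ss k) := by
  apply LinearMap.ext
  intro r
  simp only [oW, Module.End.mul_apply, LinearMap.add_apply, oL_apply, map_add, oC_mul, oC_sq h2,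
    oC_u]
  have e : gen k 1 * (gen k 1 * r) + (gen k 1 * oC k r +
      (gen k 1 * gen k 2 - gen k 2 * gen k 1) * r) + (gen k 1 * oC k r + 0) =
      (gen k 1 * gen k 1) * r + (gen k 1 * oC k r + gen k 1 * oC k r) +
        (gen k 1 * gen k 2 - gen k 2 * gen k 1) * r := by
    simp only [sub_mul, mul_assoc]
    abel
  rw [e, gen_one_sq, self_add h2, zero_mul, zero_add, zero_add, sub_eq h2]
  rfl

lemma opW_comm (i : Fin 2) (r : RR k) :
    opW i * oL k r - oL k r * opW i = oL k (opD i r) := by
  fin_cases i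
  · change oA k * oL k r - oL k r * oA k = oL k (oA k r)
    rw [oA_oL]; abel
  · change (oL k (gen k 1) + oC k) * oL k r - oL k r * (oL k (gen k 1) + oC k) = oL k (oD k r)
    rw [add_mul, mul_add, oC_oL, oD_apply, oL_add, oL_sub, oL_mul, oL_mul]
    abel

lemma eps_Pw (h2 : (2 : k) = 0) (Y : List (Fin 2)) : eps k (Pw Y) = oL k (Sw Y) := by
  induction Y with
  | nil =>
    change eps k (lt k 1 * lt k 1) = oL k (ss k)
    rw [map_mul, eps_lt]
    exact oW_sq h2
  | cons i Y ih =>
    change eps k (lt k i * Pw Y - Pw Y * lt k i) = oL k (opD i (Sw Y))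
    rw [map_sub, map_mul, map_mul, ih, eps_lt, opW_comm]

/-- elements with a leading term starting with `u` -/
def Good (r : RR k) : Prop :=
  ∃ (j : ℕ) (W : List (Fin 3)), r ∈ U k j ∧ W.head? = some 1 ∧ cu W = j ∧ rho k r W ≠ 0

lemma Good.ne_zero {r : RR k} (h : Good r) : r ≠ 0 := by
  rintro rfl
  obtain ⟨j, W, -, -, -, h⟩ := h
  simp at h

lemma eps_U (h2 : (2 : k) = 0) (X : AA k) : eps k X (gen k 1) ∈ U k 1 := by
  induction X using MonoidAlgebra.induction_linear with
  | zero => rw [map_zero, LinearMap.zero_apply]; exact Submodule.zero_mem _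
  | add f g hf hg => rw [map_add, LinearMap.add_apply]; exact Submodule.add_mem _ hf hg
  | single w c =>
    have e : MonoidAlgebra.single w c = c • ow k (FreeMonoid.toList w) := by
      rw [ow, MonoidAlgebra.of_apply, MonoidAlgebra.smul_single, smul_eq_mul, mul_one]
      rfl
    rw [e, map_smul, LinearMap.smul_apply, eps_ow_apply]
    exact Submodule.smul_mem _ _ (thw_U _)

lemma Rd_mw {Y : List (Fin 2)} (h : gd Y = true) : Rd (mw Y) = true := by
  induction Y with
  | nil => rfl
  | cons i Y ih =>
    simp only [gd, Bool.and_eq_true, Bool.not_eq_true', decide_eq_false_iff_not] at h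
    rw [mw_cons]
    simp only [Rd, Bool.and_eq_true, Bool.not_eq_true']
    refine ⟨?_, ih h.2⟩
    cases Y with
    | nil => rfl
    | cons j Y =>
      rw [mw_cons]
      fin_cases i
      · rfl
      · fin_cases j
        · rfl
        · exact absurd ⟨rfl, rfl⟩ h.1

lemma Rd_one_mw {Y : List (Fin 2)} (h : gd Y = true) : Rd (1 :: mw Y) = true := by
  simp only [Rd, Bool.and_eq_true, Bool.not_eq_true']
  refine ⟨?_, Rd_mw h⟩
  cases Y with
  | nil => rfl
  | cons j Y => rw [mw_cons]; fin_cases j <;> rfl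

lemma Rd_mw_append {Y : List (Fin 2)} (h : gd' Y) {W : List (Fin 3)} (hW : W.head? = some 1)
    (hR : Rd W = true) : Rd (mw Y ++ 2 :: W) = true := by
  induction Y with
  | nil =>
    cases W with
    | nil => simp at hW
    | cons j W =>
      simp only [List.head?_cons, Option.some.injEq] at hW
      subst hW
      simp only [mw_nil, List.nil_append]
      rw [Rd, hR]
      rfl
  | cons i Y ih =>
    have hg := h.1
    simp only [gd, Bool.and_eq_true, Bool.not_eq_true', decide_eq_false_iff_not] at hg
    rw [mw_cons, List.cons_append]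
    simp only [Rd, Bool.and_eq_true, Bool.not_eq_true']
    have h' : gd' Y := by
      refine ⟨hg.2, ?_⟩
      cases Y with
      | nil => simp
      | cons j Y => simpa [List.getLast?_cons] using h.2
    refine ⟨?_, ih h'⟩
    cases Y with
    | nil =>
      fin_cases i
      · rfl
      · exfalso
        exact h.2 rfl
    | cons j Y =>
      rw [mw_cons, List.cons_append]
      fin_cases i
      · rfl
      · fin_cases j
        · rfl
        · exact absurd ⟨rfl, rfl⟩ hg.1

/-- comparison of two leading words -/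
lemma words_eq {Y Y' : List (Fin 2)} {W W' : List (Fin 3)} (hW : W.head? = some 1)
    (hlen : Y.length ≤ Y'.length)
    (h : mw Y ++ 2 :: W = mw Y' ++ 2 :: W') : Y = Y' := by
  have h1 : (mw Y ++ [2]) ++ W = (mw Y' ++ [2]) ++ W' := by simpa using h
  rcases List.append_eq_append_iff.1 h1 with ⟨t, ht1, ht2⟩ | ⟨t, ht1, ht2⟩
  · cases t with
    | nil =>
      rw [List.append_nil] at ht1
      exact (mw_injective (List.append_cancel_right ht1)).symm
    | cons a t =>
      exfalso
      rw [ht2] at hW
      simp only [List.cons_append, List.head?_cons, Option.some.injEq] at hW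
      subst hW
      have : (1 : Fin 3) ∈ mw Y' ++ [2] := by rw [ht1]; simp
      rw [List.mem_append] at this
      rcases this with h3 | h3
      · exact one_notMem_mw _ h3
      · simp at h3
  · have hl := congrArg List.length ht1
    have e : ∀ Z : List (Fin 2), (mw Z).length = Z.length := fun Z => List.length_map _
    simp only [List.length_append, e, List.length_singleton] at hl
    have ht : t = [] := by
      apply List.eq_nil_of_length_eq_zero
      omega
    subst ht
    rw [List.append_nil] at ht1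
    exact mw_injective (List.append_cancel_right ht1)

lemma good_step1 {c : List (Fin 2) →₀ k} {f : List (Fin 2) →₀ AA k} (h2 : (2 : k) = 0)
    (hc : ∀ Y ∈ c.support, gd Y = true) (hne : c ≠ 0) :
    Good (eps k (c.sum (fun Y a => a • ow k Y) + f.sum (fun Y X' => Pw Y * X')) (gen k 1)) := by
  classical
  obtain ⟨Y, hY⟩ := Finsupp.support_nonempty_iff.2 hne
  refine ⟨1, 1 :: mw Y, eps_U h2 _, rfl, by rw [cu_cons_one, cu_mw], ?_⟩
  have e1 : eps k (c.sum (fun Y a => a • ow k Y) + f.sum (fun Y X' => Pw Y * X')) (gen k 1) =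
      (∑ Y' ∈ c.support, c Y' • thw Y') +
        ∑ Y' ∈ f.support, Sw Y' * eps k (f Y') (gen k 1) := by
    rw [map_add, LinearMap.add_apply, Finsupp.sum, Finsupp.sum, map_sum, map_sum,
      LinearMap.sum_apply, LinearMap.sum_apply]
    congr 1
    · refine Finset.sum_congr rfl (fun Y' _ => ?_)
      rw [map_smul, LinearMap.smul_apply, eps_ow_apply]
    · refine Finset.sum_congr rfl (fun Y' _ => ?_)
      rw [map_mul, eps_Pw h2]
      rfl
  rw [e1, map_add, Finsupp.add_apply, map_sum, map_sum, Finsupp.finset_sum_apply,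
    Finsupp.finset_sum_apply]
  have e2 : ∑ Y' ∈ f.support, rho k (Sw Y' * eps k (f Y') (gen k 1)) (1 :: mw Y) = 0 := by
    refine Finset.sum_eq_zero (fun Y' _ => ?_)
    refine rho_U (U_mul (Sw_U Y') (eps_U h2 (f Y'))) ?_
    rw [cu_cons_one, cu_mw]; omega
  rw [e2, add_zero]
  have e3 : ∀ Y' ∈ c.support, rho k (c Y' • thw Y') (1 :: mw Y) =
      if Y' = Y then c Y' else 0 := by
    intro Y' hY'
    have h3 := thw_lead (k := k) Y'
    have h4 := rho_N h3 (i := 1) (W := mw Y) (by rw [cu_mw]; omega)
    rw [map_sub, Finsupp.sub_apply, sub_eq_zero] at h4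
    rw [map_smul, Finsupp.smul_apply, h4, ← pw_cons, rho_pw, if_pos (Rd_one_mw (hc Y' hY')),
      Finsupp.single_apply]
    by_cases h5 : Y' = Y
    · rw [if_pos h5, if_pos (by rw [h5]), smul_eq_mul, mul_one]
    · rw [if_neg h5, if_neg, smul_zero]
      intro h6
      exact h5 (mw_injective (List.cons.inj h6).2)
  rw [Finset.sum_congr rfl e3, Finset.sum_ite_eq' c.support Y, if_pos hY]
  exact Finsupp.mem_support_iff.1 hY

lemma good_step2 {f : List (Fin 2) →₀ AA k} (h2 : (2 : k) = 0)
    (hf : ∀ Y ∈ f.support, gd' Y) (hne : f ≠ 0)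
    (hgood : ∀ Y ∈ f.support, Good (eps k (f Y) (gen k 1))) :
    Good (eps k (f.sum (fun Y X' => Pw Y * X')) (gen k 1)) := by
  classical
  choose! j V hU hV hj hcoef using hgood
  obtain ⟨Y, hY, hmin⟩ := Finset.exists_min_image f.support
    (fun Y => toLex (j Y, Y.length)) (Finsupp.support_nonempty_iff.2 hne)
  have hmin' : ∀ Y' ∈ f.support, j Y < j Y' ∨ (j Y = j Y' ∧ Y.length ≤ Y'.length) := by
    intro Y' hY'
    have := hmin Y' hY'
    rw [Prod.Lex.toLex_le_toLex] at this
    exact this
  have e1 : eps k (f.sum (fun Y X' => Pw Y * X')) (gen k 1) =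
        ∑ Y' ∈ f.support, Sw Y' * eps k (f Y') (gen k 1) := by
    rw [Finsupp.sum, map_sum, LinearMap.sum_apply]
    refine Finset.sum_congr rfl (fun Y' _ => ?_)
    rw [map_mul, eps_Pw h2]
    rfl
  have hcu : cu (mw Y ++ 2 :: V Y) = j Y := by
    rw [cu_append, cu_mw, cu_cons_two, hj Y hY, zero_add]
  refine ⟨j Y + 1, 1 :: (mw Y ++ 2 :: V Y), ?_, rfl, by rw [cu_cons_one, hcu], ?_⟩
  · rw [e1]
    refine Submodule.sum_mem _ (fun Y' hY' => ?_)
    have h3 := U_mul (Sw_U Y') (hU Y' hY')
    refine U_mono ?_ h3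
    rcases hmin' Y' hY' with h4 | h4 <;> omega
  · rw [e1, map_sum, Finsupp.finset_sum_apply]
    have e2 : ∀ Y' ∈ f.support, rho k (Sw Y' * eps k (f Y') (gen k 1)) (1 :: (mw Y ++ 2 :: V Y)) =
        rho k (pw k (1 :: (mw Y' ++ [2])) * eps k (f Y') (gen k 1)) (1 :: (mw Y ++ 2 :: V Y)) := by
      intro Y' hY'
      have h3 := N_mul_U (Sw_lead (k := k) Y') (hU Y' hY')
      have h4 := rho_N h3 (i := 1) (W := mw Y ++ 2 :: V Y) (by
        rw [hcu]
        rcases hmin' Y' hY' with h4 | h4 <;> omega)
      rw [sub_mul, map_sub, Finsupp.sub_apply, sub_eq_zero] at h4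
      rw [h4, pw_cons, pw_append, pw_cons, pw_nil, mul_one]
    rw [Finset.sum_congr rfl e2, Finset.sum_eq_single_of_mem Y hY]
    · have h3 := rho_pw_mul (k := k) (1 :: (mw Y ++ [2])) (eps k (f Y) (gen k 1)) (V Y) (by
        have h4 := Rd_mw_append (hf Y hY) (hV Y hY) (rho_ne_Rd _ _ (hcoef Y hY))
        simp only [List.cons_append, List.append_assoc, List.singleton_append]
        simp only [Rd, Bool.and_eq_true, Bool.not_eq_true']
        refine ⟨?_, h4⟩
        cases Y with
        | nil => rfl
        | cons i Y => rw [mw_cons]; fin_cases i <;> rfl)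
      have e : (1 :: (mw Y ++ [2])) ++ V Y = 1 :: (mw Y ++ 2 :: V Y) := by simp
      rw [e] at h3
      rw [h3]
      exact hcoef Y hY
    · intro Y' hY' hne'
      by_contra h3
      obtain ⟨W, hW1, hW2⟩ := rho_pw_mul_ne _ _ _ h3
      have hW3 : mw Y ++ 2 :: V Y = mw Y' ++ 2 :: W := by
        simpa using hW1
      have hW4 : cu W = j Y := by
        have := congrArg cu hW3
        rw [hcu, cu_append, cu_mw, cu_cons_two, zero_add] at this
        exact this.symm
      have hW5 : j Y' ≤ j Y := by
        by_contra h5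
        exact hW2 (rho_U (hU Y' hY') (by omega))
      rcases hmin' Y' hY' with h6 | ⟨h6, h7⟩
      · omega
      · exact hne' (words_eq (hV Y hY) h7 hW3).symm

theorem good_of_ne_zero (h2 : (2 : k) = 0) (n : ℕ) :
    ∀ X ∈ Fil k n, X ≠ 0 → Good (eps k X (gen k 1)) := by
  induction n using Nat.strong_induction_on with
  | _ n ih =>
    intro X hX hX0
    obtain ⟨c, f, h3, h4, h5, rfl⟩ := DecS_repr (Fil_le_DecS h2 n hX)
    by_cases hc : c = 0
    · subst hc
      rw [Finsupp.sum_zero_index, zero_add] at hX0 ⊢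
      apply good_step2 h2 h4
      · rintro rfl
        exact hX0 (by simp)
      · intro Y hY
        have hlow := h5 Y
        have hfY : f Y ≠ 0 := Finsupp.mem_support_iff.1 hY
        have hn : 2 ≤ n := by
          by_contra hn
          apply hfY
          have e : Low k n = ⊥ := by
            unfold Low
            rw [Submodule.span_eq_bot]
            rintro X ⟨Y', h6, -⟩
            omega
          rw [e, Submodule.mem_bot] at hlow
          exact hlow
        refine ih (n - 2) (by omega) (f Y) ?_ hfY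
        have e : Low k n ≤ Fil k (n - 2) := by
          apply Submodule.span_mono
          rintro X ⟨Y', h6, rfl⟩
          exact ⟨Y', by omega, rfl⟩
        exact e hlow
    · exact good_step1 h2 h3 hc

lemma mem_Fil (X : AA k) : ∃ n, X ∈ Fil k n := by
  induction X using MonoidAlgebra.induction_linear with
  | zero => exact ⟨0, Submodule.zero_mem _⟩
  | add f g hf hg =>
    obtain ⟨m, hm⟩ := hf
    obtain ⟨n, hn⟩ := hg
    exact ⟨max m n, Submodule.add_mem _ (Fil_mono (le_max_left _ _) hm)
      (Fil_mono (le_max_right _ _) hn)⟩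
  | single w c =>
    have e : MonoidAlgebra.single w c = c • ow k (FreeMonoid.toList w) := by
      rw [ow, MonoidAlgebra.of_apply, MonoidAlgebra.smul_single, smul_eq_mul, mul_one]
      rfl
    exact ⟨(FreeMonoid.toList w).length, by
      rw [e]; exact Submodule.smul_mem _ _ (ow_mem_Fil (le_refl _))⟩

theorem eps_eq_zero (h2 : (2 : k) = 0) (X : AA k) (h : eps k X = 0) : X = 0 := by
  by_contra hX
  obtain ⟨n, hn⟩ := mem_Fil X
  apply (good_of_ne_zero h2 n X hn hX).ne_zero
  rw [h, LinearMap.zero_apply]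

end Inj

end MP446Y
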