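import Pool.Agent.Lib.MP_446dfa_ag.helper66.Filt

set_option linter.all false

/-!
# Characteristic two: the operators `a` and `W`, leading terms
-/

noncomputable section

namespace MP446Y

universe v

section Lead

variable {k : Type v} [CommRing k]

variable (k)

/-- `s = ub + bu` -/
def ss : RR k := gen k 1 * gen k 2 + gen k 2 * gen k 1

/-- the operator `W = u + c` -/
def oW : Module.End k (RR k) := oL k (gen k 1) + oC k

/-- the derivation `c + ad u` -/
def oD : Module.End k (RR k) where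
  toFun r := oC k r + (gen k 1 * r - r * gen k 1)
  map_add' x y := by simp only [map_add, mul_add, add_mul]; abel
  map_smul' c x := by
    simp only [map_smul, mul_smul_comm, smul_mul_assoc, smul_add, smul_sub, RingHom.id_apply]

variable {k}

lemma oD_apply (r : RR k) : oD k r = oC k r + (gen k 1 * r - r * gen k 1) := rfl

lemma oD_mul (r s : RR k) : oD k (r * s) = r * oD k s + oD k r * s := by
  simp only [oD_apply, oC_mul, mul_add, add_mul, mul_sub, sub_mul, mul_assoc]
  abel

/-- a linear map satisfying the Leibniz rule -/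
def Lbz (D : Module.End k (RR k)) : Prop := ∀ r s, D (r * s) = r * D s + D r * s

lemma lbz_A : Lbz (oA k) := oA_mul k
lemma lbz_C : Lbz (oC k) := oC_mul k
lemma lbz_D : Lbz (oD k) := oD_mul

lemma Lbz.one {D : Module.End k (RR k)} (h : Lbz D) : D 1 = 0 := by
  have := h 1 1
  rw [mul_one, one_mul, mul_one] at this
  simpa using this

lemma Lbz.alg {D : Module.End k (RR k)} (h : Lbz D) (c : k) : D (algebraMap k (RR k) c) = 0 := by
  rw [Algebra.algebraMap_eq_smul_one, map_smul, h.one, smul_zero]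

lemma Lbz.mem_U {D : Module.End k (RR k)} (h : Lbz D) (hg : ∀ i, D (gen k i) ∈ U k 1)
    (r : RR k) : D r ∈ U k 1 := by
  induction r using RR_induction with
  | halg c => rw [h.alg]; exact Submodule.zero_mem _
  | hgen i => exact hg i
  | hadd x y hx hy => rw [map_add]; exact Submodule.add_mem _ hx hy
  | hmul x y hx hy => rw [h]; exact Submodule.add_mem _ (U_mul_left hy) (U_mul_right hx)

lemma mul_gen_one_mem (r : RR k) : r * gen k 1 ∈ U k 1 := U_mul_left gen_one_mem_U
lemma gen_one_mul_mem (r : RR k) : gen k 1 * r ∈ U k 1 := U_mul_right gen_one_mem_U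

lemma oA_gen_U (i : Fin 3) : oA k (gen k i) ∈ U k 1 := by
  fin_cases i
  · change oA k (gen k 0) ∈ _
    rw [oA_x]; exact Submodule.zero_mem _
  · change oA k (gen k 1) ∈ _
    rw [oA_u]; exact Submodule.sub_mem _ (gen_one_mul_mem _) (mul_gen_one_mem _)
  · change oA k (gen k 2) ∈ _
    rw [oA_b]; exact Submodule.zero_mem _

lemma oC_gen_U (i : Fin 3) : oC k (gen k i) ∈ U k 1 := by
  have h : gen k 1 * gen k 2 - gen k 2 * gen k 1 ∈ U k 1 :=
    Submodule.sub_mem _ (gen_one_mul_mem _) (mul_gen_one_mem _)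
  fin_cases i
  · change oC k (gen k 0) ∈ _
    rw [oC_x]; exact h
  · change oC k (gen k 1) ∈ _
    rw [oC_u]; exact h
  · change oC k (gen k 2) ∈ _
    rw [oC_b]; exact Submodule.neg_mem _ h

lemma oA_U (r : RR k) : oA k r ∈ U k 1 := lbz_A.mem_U oA_gen_U r
lemma oC_U (r : RR k) : oC k r ∈ U k 1 := lbz_C.mem_U oC_gen_U r
lemma oD_U (r : RR k) : oD k r ∈ U k 1 :=
  Submodule.add_mem _ (oC_U r) (Submodule.sub_mem _ (gen_one_mul_mem _) (mul_gen_one_mem _))
lemma oW_U {r : RR k} (h : r ∈ U k 1) : oW k r ∈ U k 1 :=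
  Submodule.add_mem _ (U_mul_left h) (oC_U r)

lemma gen_mul_gen_mem_N (i j : Fin 3) : gen k i * gen k j ∈ N k 0 :=
  gen_mul_mem_N (mem_U_zero _)

lemma oA_gen_N (i : Fin 3) : oA k (gen k i) ∈ N k 0 := by
  fin_cases i
  · change oA k (gen k 0) ∈ _
    rw [oA_x]; exact Submodule.zero_mem _
  · change oA k (gen k 1) ∈ _
    rw [oA_u]; exact Submodule.sub_mem _ (gen_mul_gen_mem_N _ _) (gen_mul_gen_mem_N _ _)
  · change oA k (gen k 2) ∈ _
    rw [oA_b]; exact Submodule.zero_mem _

lemma oC_gen_N (i : Fin 3) : oC k (gen k i) ∈ N k 0 := by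
  have h : gen k 1 * gen k 2 - gen k 2 * gen k 1 ∈ N k 0 :=
    Submodule.sub_mem _ (gen_mul_gen_mem_N _ _) (gen_mul_gen_mem_N _ _)
  fin_cases i
  · change oC k (gen k 0) ∈ _
    rw [oC_x]; exact h
  · change oC k (gen k 1) ∈ _
    rw [oC_u]; exact h
  · change oC k (gen k 2) ∈ _
    rw [oC_b]; exact Submodule.neg_mem _ h

lemma oD_gen_N (i : Fin 3) : oD k (gen k i) ∈ N k 0 :=
  Submodule.add_mem _ (oC_gen_N i)
    (Submodule.sub_mem _ (gen_mul_gen_mem_N _ _) (gen_mul_gen_mem_N _ _))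

lemma Lbz.mem_N {D : Module.End k (RR k)} (h : Lbz D) (hU : ∀ r, D r ∈ U k 1)
    (hN : ∀ i, D (gen k i) ∈ N k 0) {r : RR k} (hr : r ∈ N k 1) : D r ∈ N k 1 := by
  refine Submodule.span_induction (p := fun r _ => D r ∈ N k 1) ?_ ?_ ?_ ?_ hr
  · rintro r ⟨i, W, h1, rfl⟩
    rw [pw_cons, h]
    refine Submodule.add_mem _ (gen_mul_mem_N (hU _)) ?_
    have := N_mul_U (hN i) (pw_mem_U (k := k) h1)
    rwa [zero_add] at this
  · rw [map_zero]; exact Submodule.zero_mem _
  · intro x y _ _ hx hy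
    rw [map_add]; exact Submodule.add_mem _ hx hy
  · intro c x _ hx
    rw [map_smul]; exact Submodule.smul_mem _ _ hx

lemma oA_N {r : RR k} (hr : r ∈ N k 1) : oA k r ∈ N k 1 := lbz_A.mem_N oA_U oA_gen_N hr
lemma oC_N {r : RR k} (hr : r ∈ N k 1) : oC k r ∈ N k 1 := lbz_C.mem_N oC_U oC_gen_N hr
lemma oD_N {r : RR k} (hr : r ∈ N k 1) : oD k r ∈ N k 1 := lbz_D.mem_N oD_U oD_gen_N hr
lemma oW_N {r : RR k} (hr : r ∈ N k 1) : oW k r ∈ N k 1 :=
  Submodule.add_mem _ (gen_mul_mem_N (N_le_U 1 hr)) (oC_N hr)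

/-- the letter `0` corresponds to `x`, the letter `1` to `b` -/
def ml : Fin 2 → Fin 3 := ![0, 2]

/-- the word in `x`, `b` of a word in two letters -/
def mw (Y : List (Fin 2)) : List (Fin 3) := Y.map ml

@[simp] lemma mw_nil : mw [] = [] := rfl
@[simp] lemma mw_cons (i : Fin 2) (Y : List (Fin 2)) : mw (i :: Y) = ml i :: mw Y := rfl

lemma cu_mw (Y : List (Fin 2)) : cu (mw Y) = 0 := by
  induction Y with
  | nil => rfl
  | cons i Y ih =>
    rw [mw_cons]
    fin_cases i
    · change cu (0 :: mw Y) = 0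
      rw [cu_cons_zero, ih]
    · change cu (2 :: mw Y) = 0
      rw [cu_cons_two, ih]

lemma one_notMem_mw (Y : List (Fin 2)) : (1 : Fin 3) ∉ mw Y := by
  have := cu_mw Y
  rw [cu, List.count_eq_zero] at this
  exact this

lemma mw_injective : Function.Injective mw := by
  apply List.map_injective_iff.2
  intro a b h
  fin_cases a <;> fin_cases b <;> first | rfl | (exfalso; revert h; decide)

/-- the operators `a`, `W` -/
def opW (i : Fin 2) : Module.End k (RR k) := ![oA k, oW k] i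
/-- the derivations `ad a`, `ad W` -/
def opD (i : Fin 2) : Module.End k (RR k) := ![oA k, oD k] i

lemma opW_N (i : Fin 2) {r : RR k} (hr : r ∈ N k 1) : opW i r ∈ N k 1 := by
  fin_cases i
  · exact oA_N hr
  · exact oW_N hr

lemma opD_N (i : Fin 2) {r : RR k} (hr : r ∈ N k 1) : opD i r ∈ N k 1 := by
  fin_cases i
  · exact oA_N hr
  · exact oD_N hr

lemma opW_U (i : Fin 2) {r : RR k} (hr : r ∈ U k 1) : opW i r ∈ U k 1 := by
  fin_cases i
  · exact oA_U r
  · exact oW_U hr

lemma opD_U (i : Fin 2) (r : RR k) : opD i r ∈ U k 1 := by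
  fin_cases i
  · exact oA_U r
  · exact oD_U r

/-- main computation of leading terms -/
lemma opD_lead (i : Fin 2) (m : RR k) :
    opD i (gen k 1 * m) - gen k 1 * (gen k (ml i) * m) ∈ N k 1 := by
  fin_cases i
  · change oA k (gen k 1 * m) - gen k 1 * (gen k 0 * m) ∈ N k 1
    have e : oA k (gen k 1 * m) - gen k 1 * (gen k 0 * m) =
        gen k 1 * oA k m - gen k 0 * (gen k 1 * m) := by
      rw [oA_mul, oA_u]
      simp only [sub_mul, mul_assoc]
      abel
    rw [e]
    exact Submodule.sub_mem _ (gen_mul_mem_N (oA_U _)) (gen_mul_mem_N (gen_one_mul_mem _))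
  · change oD k (gen k 1 * m) - gen k 1 * (gen k 2 * m) ∈ N k 1
    have e : oD k (gen k 1 * m) - gen k 1 * (gen k 2 * m) =
        gen k 1 * oD k m - gen k 2 * (gen k 1 * m) := by
      rw [oD_mul, oD_apply (gen k 1), oC_u]
      simp only [sub_mul, add_mul, mul_assoc]
      abel
    rw [e]
    exact Submodule.sub_mem _ (gen_mul_mem_N (oD_U _)) (gen_mul_mem_N (gen_one_mul_mem _))

lemma opW_lead (i : Fin 2) (m : RR k) :
    opW i (gen k 1 * m) - gen k 1 * (gen k (ml i) * m) ∈ N k 1 := by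
  fin_cases i
  · exact opD_lead 0 m
  · change oL k (gen k 1) (gen k 1 * m) + oC k (gen k 1 * m) - gen k 1 * (gen k 2 * m) ∈ N k 1
    have e : oL k (gen k 1) (gen k 1 * m) + oC k (gen k 1 * m) - gen k 1 * (gen k 2 * m) =
        gen k 1 * oC k m - gen k 2 * (gen k 1 * m) := by
      rw [oL_apply, ← mul_assoc, gen_one_sq, zero_mul, zero_add, oC_mul, oC_u]
      simp only [sub_mul, add_mul, mul_assoc]
      abel
    rw [e]
    exact Submodule.sub_mem _ (gen_mul_mem_N (oC_U _)) (gen_mul_mem_N (gen_one_mul_mem _))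

/-- `Y(a, W) u` -/
def thw : List (Fin 2) → RR k
  | [] => gen k 1
  | i :: Y => opW i (thw Y)

/-- `Y(ad a, ad W) s` -/
def Sw : List (Fin 2) → RR k
  | [] => ss k
  | i :: Y => opD i (Sw Y)

lemma thw_lead (Y : List (Fin 2)) : thw Y - gen k 1 * pw k (mw Y) ∈ N k 1 := by
  induction Y with
  | nil => simp [thw]
  | cons i Y ih =>
    have h1 := opW_N i ih
    have h2 := opW_lead i (pw k (mw Y))
    have h3 := Submodule.add_mem _ h1 h2
    have e : opW i (thw Y - gen k 1 * pw k (mw Y)) + (opW i (gen k 1 * pw k (mw Y)) -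
      gen k 1 * (gen k (ml i) * pw k (mw Y))) = thw (i :: Y) - gen k 1 * pw k (mw (i :: Y)) := by
      rw [map_sub, mw_cons, pw_cons]
      change _ = opW i (thw Y) - _
      abel
    rwa [e] at h3

lemma Sw_lead (Y : List (Fin 2)) : Sw Y - gen k 1 * (pw k (mw Y) * gen k 2) ∈ N k 1 := by
  induction Y with
  | nil =>
    have e : Sw [] - gen k 1 * (pw k (mw []) * gen k 2) = gen k 2 * gen k 1 := by
      change ss k - _ = _
      simp [ss]
    rw [e]
    exact gen_mul_mem_N gen_one_mem_U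
  | cons i Y ih =>
    have h1 := opD_N i ih
    have h2 := opD_lead i (pw k (mw Y) * gen k 2)
    have h3 := Submodule.add_mem _ h1 h2
    have e : opD i (Sw Y - gen k 1 * (pw k (mw Y) * gen k 2)) +
      (opD i (gen k 1 * (pw k (mw Y) * gen k 2)) -
      gen k 1 * (gen k (ml i) * (pw k (mw Y) * gen k 2))) =
        Sw (i :: Y) - gen k 1 * (pw k (mw (i :: Y)) * gen k 2) := by
      rw [map_sub, mw_cons, pw_cons, mul_assoc (gen k (ml i))]
      change _ = opD i (Sw Y) - _
      abel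
    rwa [e] at h3

lemma thw_U (Y : List (Fin 2)) : (thw Y : RR k) ∈ U k 1 := by
  induction Y with
  | nil => exact gen_one_mem_U
  | cons i Y ih => exact opW_U i ih

lemma Sw_U (Y : List (Fin 2)) : (Sw Y : RR k) ∈ U k 1 := by
  cases Y with
  | nil => exact Submodule.add_mem _ (gen_one_mul_mem _) (mul_gen_one_mem _)
  | cons i Y => exact opD_U i _

end Lead

end MP446Y
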