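import Pool.Agent.Lib.MP_446dfa_ag.helper66.Comm

set_option linter.all false

/-!
# Coefficients of Lie elements
-/

noncomputable section

namespace MP446Y

open MP446

universe u v

attribute [local instance 100] LieRing.ofAssociativeRing

section InsSum

/-- the sum of the values of `c` at the words obtained by inserting the letter `l` in `v` -/
def insSum {A : Type*} [AddCommMonoid A] (l : Fin 2) : (List (Fin 2) → A) → List (Fin 2) → A
  | c, [] => c [l]
  | c, a :: v => c (l :: a :: v) + insSum l (fun z => c (a :: z)) v

lemma insSum_map {A B : Type*} [AddCommMonoid A] [AddCommMonoid B] (g : A →+ B) (l : Fin 2)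
    (c : List (Fin 2) → A) (v : List (Fin 2)) :
    insSum l (fun z => g (c z)) v = g (insSum l c v) := by
  induction v generalizing c with
  | nil => rfl
  | cons a v ih =>
    simp only [insSum, map_add]
    rw [ih (fun z => c (a :: z))]

lemma insSum_add {A : Type*} [AddCommMonoid A] (l : Fin 2)
    (c c' : List (Fin 2) → A) (v : List (Fin 2)) :
    insSum l (fun z => c z + c' z) v = insSum l c v + insSum l c' v := by
  induction v generalizing c c' with
  | nil => rfl
  | cons a v ih =>
    simp only [insSum]
    rw [ih (fun z => c (a :: z)) (fun z => c' (a :: z))]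
    exact add_add_add_comm _ _ _ _

lemma insSum_zero {A : Type*} [AddCommMonoid A] (l : Fin 2) (v : List (Fin 2)) :
    insSum l (fun _ => (0 : A)) v = 0 := by
  induction v with
  | nil => rfl
  | cons a v ih => simp only [insSum]; rw [ih, add_zero]

/-- the part of the sum where the letter is inserted before the end of `v` -/
def insL {A : Type*} [AddCommMonoid A] (l : Fin 2) :
    (List (Fin 2) → A) → List (Fin 2) → List (Fin 2) → A
  | _, [], _ => 0
  | c, a :: v, z => c (l :: a :: (v ++ z)) + insL l (fun t => c (a :: t)) v z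

lemma insSum_append {A : Type*} [AddCommMonoid A] (l : Fin 2)
    (c : List (Fin 2) → A) (v z : List (Fin 2)) :
    insSum l c (v ++ z) = insL l c v z + insSum l (fun t => c (v ++ t)) z := by
  induction v generalizing c with
  | nil => simp [insL]
  | cons a v ih =>
    simp only [List.cons_append, insSum, insL]
    rw [ih (fun t => c (a :: t)), add_assoc]

lemma insL_eq_zero {A : Type*} [AddCommMonoid A] (l : Fin 2)
    (c : List (Fin 2) → A) (v z : List (Fin 2))
    (h : ∀ v1 v2, v = v1 ++ v2 → v2 ≠ [] → c (v1 ++ l :: (v2 ++ z)) = 0) : insL l c v z = 0 := by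
  induction v generalizing c with
  | nil => rfl
  | cons a v ih =>
    simp only [insL]
    have h1 := h [] (a :: v) rfl (by simp)
    simp only [List.nil_append, List.cons_append] at h1
    rw [h1, zero_add]
    apply ih
    intro v1 v2 h2 h3
    exact h (a :: v1) v2 (by rw [h2]; rfl) h3

lemma insSum_replicate {A : Type*} [AddCommMonoid A] (l : Fin 2)
    (c : List (Fin 2) → A) (j : ℕ) :
    insSum l c (List.replicate j l) = (j + 1) • c (List.replicate (j + 1) l) := by
  induction j generalizing c with
  | zero => simp [insSum]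
  | succ j ih =>
    rw [List.replicate_succ]
    simp only [insSum]
    rw [ih (fun z => c (l :: z))]
    change c (List.replicate (j + 2) l) + (j + 1) • c (List.replicate (j + 2) l) =
      (j + 1 + 1) • c (List.replicate (j + 2) l)
    rw [add_comm, ← succ_nsmul]

end InsSum

section Deriv

variable (k : Type v) [CommRing k]

/-- remove a letter `l` from a word in all possible ways -/
def del (l : Fin 2) : List (Fin 2) → AA k
  | [] => 0
  | i :: Y => (if i = l then ow k Y else 0) + lt k i * del l Y

/-- the derivation removing the letter `l` -/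
def Dl (l : Fin 2) : AA k →ₗ[k] AA k where
  toFun X := X.coeff.sum (fun w a => a • del k l (FreeMonoid.toList w))
  map_add' X X' := by
    rw [MonoidAlgebra.coeff_add]
    exact Finsupp.sum_add_index' (h := fun w a => a • del k l (FreeMonoid.toList w))
      (fun w => zero_smul _ _) (fun w b b' => add_smul _ _ _)
  map_smul' c X := by
    rw [MonoidAlgebra.coeff_smul, Finsupp.sum_smul_index' (by simp), Finsupp.smul_sum]
    simp only [smul_assoc, RingHom.id_apply]

variable {k}

lemma Dl_ow (l : Fin 2) (Y : List (Fin 2)) : Dl k l (ow k Y) = del k l Y := by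
  change (ow k Y).coeff.sum (fun w a => a • del k l (FreeMonoid.toList w)) = _
  unfold ow
  rw [MonoidAlgebra.of_apply, MonoidAlgebra.coeff_single, Finsupp.sum_single_index (by simp),
    one_smul]
  rfl

lemma del_append (l : Fin 2) (Y Y' : List (Fin 2)) :
    del k l (Y ++ Y') = del k l Y * ow k Y' + ow k Y * del k l Y' := by
  induction Y with
  | nil => simp [del]
  | cons i Y ih =>
    rw [List.cons_append]
    simp only [del]
    rw [ih, ow_cons, ow_append, add_mul, mul_add, ite_mul, zero_mul]
    simp only [mul_assoc]
    abel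

lemma Dl_mul (l : Fin 2) (X X' : AA k) : Dl k l (X * X') = Dl k l X * X' + X * Dl k l X' := by
  induction X using MonoidAlgebra.induction_linear with
  | zero => simp
  | add f g hf hg => rw [add_mul, map_add, hf, hg, map_add, add_mul, add_mul]; abel
  | single w c =>
    induction X' using MonoidAlgebra.induction_linear with
    | zero => simp
    | add f g hf hg => rw [mul_add, map_add, hf, hg, map_add, mul_add, mul_add]; abel
    | single w' c' =>
      rw [single_eq, single_eq, smul_mul_smul_comm, map_smul, map_smul, map_smul, ← ow_append,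
        Dl_ow, Dl_ow, Dl_ow, del_append, smul_mul_smul_comm, smul_mul_smul_comm, smul_add]

lemma coeff_lt_mul_nil (i : Fin 2) (Z : AA k) :
    (lt k i * Z).coeff (FreeMonoid.ofList []) = 0 := by
  rw [lt, ow, MonoidAlgebra.of_apply]
  apply MonoidAlgebra.coeff_single_mul_of_forall_mul_ne
  intro d hd
  have : i :: FreeMonoid.toList d = [] := hd
  simp at this

lemma coeff_lt_mul_cons (i a : Fin 2) (v : List (Fin 2)) (Z : AA k) :
    (lt k i * Z).coeff (FreeMonoid.ofList (a :: v)) =
      if i = a then Z.coeff (FreeMonoid.ofList v) else 0 := by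
  rw [lt, ow, MonoidAlgebra.of_apply]
  split_ifs with h
  · subst h
    rw [MonoidAlgebra.coeff_single_mul_eq_mul_coeff (m₂ := FreeMonoid.ofList v), one_mul]
    intro m' _
    constructor
    · intro h3
      exact mul_left_cancel h3
    · rintro rfl; rfl
  · apply MonoidAlgebra.coeff_single_mul_of_forall_mul_ne
    intro d hd
    have h3 : i :: FreeMonoid.toList d = a :: v := hd
    exact h (List.cons.inj h3).1

lemma coeff_del (l : Fin 2) (v Y : List (Fin 2)) :
    (del k l Y).coeff (FreeMonoid.ofList v) =
      insSum l (fun z => (ow k Y).coeff (FreeMonoid.ofList z)) v := by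
  induction v generalizing Y with
  | nil =>
    cases Y with
    | nil =>
      simp only [del, insSum]
      rw [ow_coeff, if_neg (by simp), MonoidAlgebra.coeff_zero]
      rfl
    | cons i Y =>
      simp only [del, insSum]
      rw [MonoidAlgebra.coeff_add, Finsupp.add_apply, coeff_lt_mul_nil, add_zero, ow_coeff]
      by_cases h : i = l
      · rw [if_pos h, ow_coeff]
        by_cases h2 : Y = []
        · rw [if_pos h2, if_pos (by rw [h, h2])]
        · rw [if_neg h2, if_neg (fun h3 => h2 (List.cons.inj h3).2)]
      · rw [if_neg h, if_neg (fun h3 => h (List.cons.inj h3).1), MonoidAlgebra.coeff_zero]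
        rfl
  | cons a v ih =>
    cases Y with
    | nil =>
      simp only [del, insSum]
      rw [ow_coeff, if_neg (by simp), MonoidAlgebra.coeff_zero]
      have e : (fun z => (ow k []).coeff (FreeMonoid.ofList (a :: z))) = fun _ => (0 : k) := by
        funext z
        rw [ow_coeff, if_neg (by simp)]
      rw [e, insSum_zero]
      simp
    | cons i Y =>
      simp only [del, insSum]
      rw [MonoidAlgebra.coeff_add, Finsupp.add_apply, coeff_lt_mul_cons, ih, ow_coeff]
      congr 1
      · by_cases h : i = l
        · rw [if_pos h, ow_coeff]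
          by_cases h2 : Y = a :: v
          · rw [if_pos h2, if_pos (by rw [h, h2])]
          · rw [if_neg h2, if_neg (fun h3 => h2 (List.cons.inj h3).2)]
        · rw [if_neg h, if_neg (fun h3 => h (List.cons.inj h3).1), MonoidAlgebra.coeff_zero]
          rfl
      · by_cases h : i = a
        · rw [if_pos h]
          congr 1
          funext z
          rw [ow_coeff, ow_coeff]
          by_cases h2 : Y = z
          · rw [if_pos h2, if_pos (by rw [h, h2])]
          · rw [if_neg h2, if_neg (fun h3 => h2 (List.cons.inj h3).2)]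
        · rw [if_neg h]
          have e : (fun z => (ow k (i :: Y)).coeff (FreeMonoid.ofList (a :: z))) =
              fun _ => (0 : k) := by
            funext z
            rw [ow_coeff, if_neg (fun h3 => h (List.cons.inj h3).1)]
          rw [e, insSum_zero]

lemma coeff_Dl (l : Fin 2) (X : AA k) (v : List (Fin 2)) :
    (Dl k l X).coeff (FreeMonoid.ofList v) =
      insSum l (fun z => X.coeff (FreeMonoid.ofList z)) v := by
  induction X using MonoidAlgebra.induction_linear with
  | zero =>
    rw [map_zero, MonoidAlgebra.coeff_zero]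
    have e : (fun z => (0 : FreeMonoid (Fin 2) →₀ k) (FreeMonoid.ofList z)) =
      fun _ => (0 : k) := by funext z; rfl
    rw [e, insSum_zero]
    rfl
  | add f g hf hg =>
    rw [map_add, MonoidAlgebra.coeff_add, Finsupp.add_apply, hf, hg, ← insSum_add]
    rfl
  | single w c =>
    rw [single_eq, map_smul, Dl_ow, MonoidAlgebra.coeff_smul, Finsupp.smul_apply, coeff_del,
      smul_eq_mul]
    have := insSum_map (AddMonoidHom.mulLeft c) l
      (fun z => (ow k (FreeMonoid.toList w)).coeff (FreeMonoid.ofList z)) v
    simp only [AddMonoidHom.coe_mulLeft] at this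
    rw [← this]
    rfl

end Deriv

section Lie

variable {K : Type u} [Field K]

variable (K) in
/-- The embedding of the free Lie algebra into the algebra of non-commutative polynomials. -/
def assoc : F2 K →ₗ⁅K⁆ MonoidAlgebra K (FreeMonoid (Fin 2)) :=
  FreeLieAlgebra.lift K (fun i => MonoidAlgebra.of K (FreeMonoid (Fin 2)) (FreeMonoid.of i))

lemma assoc_gA : assoc K (gA K) = lt K 0 := by
  unfold assoc gA
  rw [FreeLieAlgebra.lift_of_apply]
  rfl

lemma assoc_gB : assoc K (gB K) = lt K 1 := by
  unfold assoc gB
  rw [FreeLieAlgebra.lift_of_apply]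
  rfl

lemma EV_lt_zero {A : Type*} [Ring A] [Algebra K A] (x y : A) : EV x y (lt K 0) = x := by
  rw [lt, EV_ow]; simp

lemma EV_lt_one {A : Type*} [Ring A] [Algebra K A] (x y : A) : EV x y (lt K 1) = y := by
  rw [lt, EV_ow]; simp

lemma ev_eq_EV {A : Type u} [Ring A] [Algebra K A] (x y : A) (ψ : F2 K) :
    ev x y ψ = EV x y (assoc K ψ) := by
  induction ψ using F2_induction with
  | hA =>
    rw [assoc_gA, EV_lt_zero]
    unfold ev gA
    rw [FreeLieAlgebra.lift_of_apply]
    rfl
  | hB =>
    rw [assoc_gB, EV_lt_one]
    unfold ev gB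
    rw [FreeLieAlgebra.lift_of_apply]
    rfl
  | hadd a b ha hb => rw [map_add, map_add, map_add, ha, hb]
  | hsmul c a ha => rw [map_smul, map_smul, map_smul, ha]
  | hlie a b ha hb =>
    rw [LieHom.map_lie, LieHom.map_lie, ha, hb, LieRing.of_associative_ring_bracket,
      LieRing.of_associative_ring_bracket, map_sub, map_mul, map_mul]

lemma lie_linear (ψ : F2 K) : ∃ α : Fin 2 → K,
    (∀ l, Dl K l (assoc K ψ) = α l • 1) ∧ ∀ x y : K, ev x y ψ = α 0 * x + α 1 * y := by
  induction ψ using F2_induction with
  | hA =>
    refine ⟨![1, 0], fun l => ?_, fun x y => ?_⟩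
    · rw [assoc_gA, lt, Dl_ow]
      fin_cases l <;> simp [del]
    · rw [ev_eq_EV, assoc_gA, EV_lt_zero]; simp
  | hB =>
    refine ⟨![0, 1], fun l => ?_, fun x y => ?_⟩
    · rw [assoc_gB, lt, Dl_ow]
      fin_cases l <;> simp [del]
    · rw [ev_eq_EV, assoc_gB, EV_lt_one]; simp
  | hadd a b ha hb =>
    obtain ⟨α, h1, h2⟩ := ha
    obtain ⟨β, h3, h4⟩ := hb
    refine ⟨α + β, fun l => ?_, fun x y => ?_⟩
    · rw [map_add, map_add, h1, h3, Pi.add_apply, add_smul]
    · rw [map_add, h2, h4, Pi.add_apply, Pi.add_apply]; ring
  | hsmul c a ha =>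
    obtain ⟨α, h1, h2⟩ := ha
    refine ⟨c • α, fun l => ?_, fun x y => ?_⟩
    · rw [map_smul, map_smul, h1, Pi.smul_apply, smul_assoc]
    · rw [map_smul, h2, Pi.smul_apply, Pi.smul_apply, smul_eq_mul, smul_eq_mul, smul_eq_mul]; ring
  | hlie a b ha hb =>
    obtain ⟨α, h1, h2⟩ := ha
    obtain ⟨β, h3, h4⟩ := hb
    refine ⟨0, fun l => ?_, fun x y => ?_⟩
    · rw [LieHom.map_lie, LieRing.of_associative_ring_bracket, map_sub, Dl_mul, Dl_mul, h1, h3]
      simp only [smul_mul_assoc, mul_smul_comm, one_mul, mul_one, Pi.zero_apply, zero_smul]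
      abel
    · rw [LieHom.map_lie, LieRing.of_associative_ring_bracket]
      simp [mul_comm]

lemma assoc_coeff_nil (ψ : F2 K) : (assoc K ψ).coeff (FreeMonoid.ofList []) = 0 := by
  have key : ∀ X : AA K, EV (0 : K) (0 : K) X = X.coeff (FreeMonoid.ofList []) := by
    intro X
    induction X using MonoidAlgebra.induction_linear with
    | zero => simp
    | add f g hf hg => rw [map_add, hf, hg, MonoidAlgebra.coeff_add, Finsupp.add_apply]
    | single w c =>
      rw [single_eq, map_smul, EV_ow, MonoidAlgebra.coeff_smul, Finsupp.smul_apply, ow_coeff]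
      congr 1
      generalize FreeMonoid.toList w = Y
      cases Y with
      | nil => simp
      | cons i Y =>
        rw [if_neg (by simp), List.map_cons, List.prod_cons]
        fin_cases i <;> simp
  obtain ⟨α, -, h2⟩ := lie_linear ψ
  rw [← key, ← ev_eq_EV, h2]
  simp

/-- the relations between the coefficients of a Lie element -/
lemma lie_rel (ψ : F2 K) (l : Fin 2) (v : List (Fin 2)) (hv : v ≠ []) :
    insSum l (fun z => (assoc K ψ).coeff (FreeMonoid.ofList z)) v = 0 := by
  obtain ⟨α, h1, -⟩ := lie_linear ψ
  rw [← coeff_Dl, h1, MonoidAlgebra.coeff_smul, Finsupp.smul_apply, ← ow_nil, ow_coeff,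
    if_neg (fun h => hv h.symm), smul_zero]

end Lie

end MP446Y
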