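import Pool.Agent.Lib.MP_446dfa_ag.helper66.Red

set_option linter.all false

/-!
# Elements of `grt₁` are determined by their coefficients at words with exponents at least two
-/

noncomputable section

namespace MP446Y

open MP446

universe u v

attribute [local instance 100] LieRing.ofAssociativeRing

section Words

lemma gd_cons (i : Fin 2) (Y : List (Fin 2)) :
    gd (i :: Y) = true ↔ ¬ (i = 1 ∧ Y.head? = some 1) ∧ gd Y = true := by
  simp only [gd, Bool.and_eq_true, Bool.not_eq_true', decide_eq_false_iff_not]

lemma gd_append_left {Y Z : List (Fin 2)} (h : gd (Y ++ Z) = true) : gd Y = true := by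
  induction Y with
  | nil => rfl
  | cons i Y ih =>
    rw [List.cons_append, gd_cons] at h
    rw [gd_cons]
    refine ⟨?_, ih h.2⟩
    rintro ⟨h1, h2⟩
    apply h.1
    refine ⟨h1, ?_⟩
    cases Y with
    | nil => simp at h2
    | cons j Y => simpa using h2

lemma gd_append_right {Y Z : List (Fin 2)} (h : gd (Y ++ Z) = true) : gd Z = true := by
  induction Y with
  | nil => exact h
  | cons i Y ih =>
    rw [List.cons_append, gd_cons] at h
    exact ih h.2

/-- inserting letters `0` -/
lemma gd_insert_zero {Y Z : List (Fin 2)} (h : gd (Y ++ Z) = true) :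
    gd (Y ++ 0 :: Z) = true := by
  induction Y with
  | nil =>
    rw [List.nil_append, gd_cons]
    exact ⟨by simp, h⟩
  | cons i Y ih =>
    rw [List.cons_append, gd_cons] at h
    rw [List.cons_append, gd_cons]
    refine ⟨?_, ih h.2⟩
    rintro ⟨h1, h2⟩
    apply h.1
    refine ⟨h1, ?_⟩
    cases Y with
    | nil => simp at h2
    | cons j Y => simpa using h2

/-- inserting a letter `1` between two letters `0` -/
lemma gd_insert_one {Y Z : List (Fin 2)} (h : gd (Y ++ 0 :: Z) = true) (hZ : Z.head? ≠ some 1) :
    gd (Y ++ 0 :: 1 :: Z) = true := by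
  induction Y with
  | nil =>
    rw [List.nil_append, gd_cons] at h
    rw [List.nil_append, gd_cons, gd_cons]
    exact ⟨by simp, ⟨fun h1 => hZ h1.2, h.2⟩⟩
  | cons i Y ih =>
    rw [List.cons_append, gd_cons] at h
    rw [List.cons_append, gd_cons]
    refine ⟨?_, ih h.2⟩
    rintro ⟨h1, h2⟩
    apply h.1
    refine ⟨h1, ?_⟩
    cases Y with
    | nil => simp at h2
    | cons j Y => simpa using h2

end Words

section CharTwo

/-- in characteristic two, inserting a letter `1` after a letter `0` -/
lemma ins_one {c : List (Fin 2) → ZMod 2}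
    (hc : ∀ Y, gd Y = true → Y.head? = some 0 → c Y = 0) :
    ∀ (n : ℕ) (v q : List (Fin 2)), v.length ≤ n → gd (q ++ 0 :: v) = true →
      (q ++ [0]).head? = some 0 → insSum 1 (fun t => c (q ++ 0 :: t)) v = 0 := by
  have hhead : ∀ (q t : List (Fin 2)), (q ++ [0]).head? = some 0 →
      (q ++ 0 :: t).head? = some 0 := by
    intro q t h
    cases q with
    | nil => rfl
    | cons a q => simpa using h
  intro n
  induction n using Nat.strong_induction_on with
  | _ n ih =>
    intro v q hn hg hh
    rcases v with _ | ⟨a, v⟩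
    · simp only [insSum]
      exact hc _ (gd_insert_one hg (by simp)) (hhead _ _ hh)
    · rw [List.length_cons] at hn
      have ha : a = 0 ∨ a = 1 := by fin_cases a <;> simp
      rcases ha with rfl | rfl
      · simp only [insSum]
        rw [hc _ (gd_insert_one hg (by simp)) (hhead _ _ hh), zero_add]
        have h1 := ih v.length (by omega) v (q ++ [0]) le_rfl (by simpa using hg)
          (by simpa using hhead q [0] hh)
        simpa using h1
      · rcases v with _ | ⟨b, v⟩
        · simp only [insSum]
          exact CharTwo.add_self_eq_zero _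
        · have hb : b = 0 ∨ b = 1 := by fin_cases b <;> simp
          rcases hb with rfl | rfl
          · simp only [insSum]
            rw [← add_assoc, CharTwo.add_self_eq_zero, zero_add]
            rw [List.length_cons] at hn
            have h1 := ih v.length (by omega) v (q ++ [0, 1]) le_rfl (by simpa using hg)
              (by
                have := hhead q [1, 0] hh
                simpa using this)
            simpa using h1
          · exfalso
            have h1 := gd_append_right hg
            rw [gd_cons, gd_cons] at h1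
            exact h1.2.1 ⟨rfl, rfl⟩

lemma all_zero_two {c : List (Fin 2) → ZMod 2}
    (hc : ∀ Y, gd Y = true → Y.head? = some 0 → c Y = 0) (h0 : c [] = 0)
    (hrel : ∀ v, insSum 1 c v = 0) : ∀ Y, gd Y = true → c Y = 0 := by
  intro Y hY
  rcases Y with _ | ⟨a, Y⟩
  · exact h0
  · have ha : a = 0 ∨ a = 1 := by fin_cases a <;> simp
    rcases ha with rfl | rfl
    · exact hc _ hY rfl
    · rcases Y with _ | ⟨b, Y⟩
      · exact hrel []
      · have hb : b = 0 ∨ b = 1 := by fin_cases b <;> simp
        rcases hb with rfl | rfl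
        · have h1 := hrel (0 :: Y)
          simp only [insSum] at h1
          have h2 := ins_one hc Y.length Y [] le_rfl (gd_append_right (Y := [1]) hY) rfl
          simp only [List.nil_append] at h2
          rw [h2, add_zero] at h1
          exact h1
        · exfalso
          rw [gd_cons] at hY
          exact hY.1 ⟨rfl, rfl⟩

end CharTwo

section CharZero

variable {K : Type u} [Field K] [CharZero K]

lemma ones_zero {c : List (Fin 2) → K} (l : Fin 2) (h0 : c [] = 0)
    (hrel : ∀ v, insSum l c v = 0) (n : ℕ) : c (List.replicate n l) = 0 := by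
  cases n with
  | zero => exact h0
  | succ n =>
    have h1 := hrel (List.replicate n l)
    rw [insSum_replicate, ← Nat.cast_smul_eq_nsmul K, smul_eq_mul, mul_eq_zero] at h1
    rcases h1 with h1 | h1
    · exfalso
      have : ((n + 1 : ℕ) : K) ≠ 0 := Nat.cast_ne_zero.2 (Nat.succ_ne_zero n)
      exact this h1
    · exact h1

lemma tail_zero {c : List (Fin 2) → K}
    (hc : ∀ Y, gd Y = true → Y.head? = some 0 → Y.getLast? = some 1 → c Y = 0)
    (hrel : ∀ v, insSum 0 c v = 0) (j : ℕ) (v : List (Fin 2)) (hg : gd v = true)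
    (hh : v.head? = some 0) (hl : v.getLast? = some 1) : c (v ++ List.replicate j 0) = 0 := by
  induction j generalizing v with
  | zero => simpa using hc v hg hh hl
  | succ j ih =>
    have h1 := hrel (v ++ List.replicate j 0)
    rw [insSum_append, insL_eq_zero, zero_add, insSum_replicate (c := fun t => c (v ++ t)),
      ← Nat.cast_smul_eq_nsmul K, smul_eq_mul, mul_eq_zero] at h1
    · rcases h1 with h1 | h1
      · exfalso
        have : ((j + 1 : ℕ) : K) ≠ 0 := Nat.cast_ne_zero.2 (Nat.succ_ne_zero j)
        exact this h1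
      · exact h1
    · intro v1 v2 hv hv2
      have h3 := ih (v1 ++ 0 :: v2) (gd_insert_zero (by rw [← hv]; exact hg)) ?_ ?_
      · rw [List.append_assoc, List.cons_append] at h3
        exact h3
      · cases v1 with
        | nil => rfl
        | cons a v1 =>
          rw [hv] at hh
          simpa using hh
      · rw [← hl, hv, List.getLast?_append, List.getLast?_append, List.getLast?_cons]
        cases hv3 : v2.getLast? with
        | none => exact absurd (List.getLast?_eq_none_iff.1 hv3) hv2
        | some b => simp

lemma split_tail (Y : List (Fin 2)) : (∃ j, Y = List.replicate j 0) ∨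
    ∃ v j, Y = v ++ List.replicate j 0 ∧ v.getLast? = some 1 := by
  induction Y using List.reverseRecOn with
  | nil => exact Or.inl ⟨0, rfl⟩
  | append_singleton Y a ih =>
    have ha : a = 0 ∨ a = 1 := by fin_cases a <;> simp
    rcases ha with rfl | rfl
    · rcases ih with ⟨j, rfl⟩ | ⟨v, j, rfl, hv⟩
      · exact Or.inl ⟨j + 1, by rw [List.replicate_succ']⟩
      · exact Or.inr ⟨v, j + 1, by rw [List.replicate_succ', List.append_assoc], hv⟩
    · exact Or.inr ⟨Y ++ [1], 0, by simp, by simp⟩

lemma head_zero {c : List (Fin 2) → K}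
    (hc : ∀ Y, gd Y = true → Y.head? = some 0 → Y.getLast? = some 1 → c Y = 0) (h0 : c [] = 0)
    (hrel : ∀ v, insSum 0 c v = 0) (Y : List (Fin 2)) (hg : gd Y = true)
    (hh : Y.head? = some 0) : c Y = 0 := by
  rcases split_tail Y with ⟨j, rfl⟩ | ⟨v, j, rfl, hv⟩
  · exact ones_zero 0 h0 hrel j
  · apply tail_zero hc hrel j v (gd_append_left hg) _ hv
    cases v with
    | nil => simp at hv
    | cons a v => simpa using hh

/-- The pentagon relation determines an element of the free Lie algebra through its coefficients
at the words which start with `0`, end with `1` and have no two consecutive letters `1`. -/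
theorem eq_zero_of_gd (ψ : F2 K)
    (hpent : ∀ (L : Type u) [LieRing L] [LieAlgebra K L] (t : Fin 4 → Fin 4 → L), InfBraid t →
      ev (t 0 1) (t 1 2 + t 1 3) ψ + ev (t 0 2 + t 1 2) (t 2 3) ψ =
        ev (t 1 2) (t 2 3) ψ + ev (t 0 1 + t 0 2) (t 1 3 + t 2 3) ψ + ev (t 0 1) (t 1 2) ψ)
    (h : ∀ Y : List (Fin 2), gd Y = true → Y.head? = some 0 → Y.getLast? = some 1 →
      (assoc K ψ).coeff (FreeMonoid.ofList Y) = 0) : ψ = 0 := by
  -- the linear part vanishes
  obtain ⟨α, hα1, hα2⟩ := lie_linear ψ
  have hα : ∀ l, α l = 0 := by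
    have hbr : ∀ t : Fin 4 → Fin 4 → K, (∀ i j, t i j = t j i) → InfBraid t := by
      intro t ht
      refine ⟨ht, ?_, ?_⟩
      · intro i j k l _ _ _ _ _ _
        rw [LieRing.of_associative_ring_bracket, mul_comm, sub_self]
      · intro i j k _ _ _
        rw [LieRing.of_associative_ring_bracket, mul_comm, sub_self]
    have h0 : α 0 = 0 := by
      have h1 := hpent K (fun i j => if (i = 0 ∧ j = 1) ∨ (i = 1 ∧ j = 0) then 1 else 0)
        (hbr _ (by intro i j; fin_cases i <;> fin_cases j <;> simp))
      simp only [hα2] at h1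
      simp at h1
      exact h1
    have h1 : α 1 = 0 := by
      have h1 := hpent K (fun i j => if (i = 2 ∧ j = 3) ∨ (i = 3 ∧ j = 2) then 1 else 0)
        (hbr _ (by intro i j; fin_cases i <;> fin_cases j <;> simp))
      simp only [hα2] at h1
      simp at h1
      exact h1
    intro l
    fin_cases l
    · exact h0
    · exact h1
  set c : List (Fin 2) → K := fun Y => (assoc K ψ).coeff (FreeMonoid.ofList Y) with hcdef
  have hrel : ∀ l v, insSum l c v = 0 := by
    intro l v
    rw [hcdef, ← coeff_Dl, hα1, hα, zero_smul]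
    rfl
  have hc0 : c [] = 0 := assoc_coeff_nil ψ
  have hhead : ∀ Y, gd Y = true → Y.head? = some 0 → c Y = 0 :=
    head_zero h hc0 (hrel 0)
  -- the pentagon relation for the operators
  have hp : pentOp K (assoc K ψ).coeff = 0 := by
    have h1 := hpent (Module.End K (RR K)) (tt K) (tt_infBraid K)
    simp only [ev_eq_EV] at h1
    have h2 := pentOp_eq (k := K) (assoc K ψ)
    rw [h2, sub_eq_zero]
    exact h1
  by_contra hne
  have hX : assoc K ψ ≠ 0 := fun h1 => hne (assoc_injective (by rw [h1, map_zero]))
  obtain ⟨M, g, hM, w0, hw0⟩ := exists_red (K := K) (assoc K ψ) hX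
  let cM : FreeMonoid (Fin 2) → M := fun w => ⟨(assoc K ψ).coeff w, hM w⟩
  let cb : FreeMonoid (Fin 2) →₀ ZMod 2 :=
    Finsupp.onFinset (assoc K ψ).coeff.support (fun w => g (cM w)) (by
      intro w hw
      rw [Finsupp.mem_support_iff]
      intro h0
      apply hw
      have : cM w = 0 := Subtype.ext h0
      rw [this, map_zero])
  have hcb : ∀ w, cb w = g (cM w) := fun w => rfl
  have hcbz : ∀ Y, c Y = 0 → cb (FreeMonoid.ofList Y) = 0 := by
    intro Y hY
    have : cM (FreeMonoid.ofList Y) = 0 := Subtype.ext hY
    rw [hcb, this, map_zero]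
  -- relations modulo two
  have hrel2 : ∀ l v, insSum l (fun Y => cb (FreeMonoid.ofList Y)) v = 0 := by
    intro l v
    have h1 : insSum l (fun Y => cM (FreeMonoid.ofList Y)) v = 0 := by
      apply Subtype.ext
      have h2 := insSum_map (M.subtype.toAddMonoidHom) l (fun Y => cM (FreeMonoid.ofList Y)) v
      have h3 : M.subtype (insSum l (fun Y => cM (FreeMonoid.ofList Y)) v) = insSum l c v :=
        h2.symm
      change M.subtype (insSum l (fun Y => cM (FreeMonoid.ofList Y)) v) = 0
      rw [h3, hrel]
    have h2 := insSum_map g l (fun Y => cM (FreeMonoid.ofList Y)) v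
    rw [h1, map_zero] at h2
    exact h2
  have hgd : ∀ Y, gd Y = true → cb (FreeMonoid.ofList Y) = 0 :=
    all_zero_two (c := fun Y => cb (FreeMonoid.ofList Y))
      (fun Y h1 h2 => hcbz Y (hhead Y h1 h2)) (hcbz [] hc0) (hrel2 1)
  have hones : ∀ n, cb (FreeMonoid.ofList (List.replicate n 1)) = 0 :=
    fun n => hcbz _ (ones_zero 1 hc0 (hrel 1) n)
  have hp2 : pentOp (ZMod 2) cb = 0 := by
    rw [pentOp_iff] at hp ⊢
    intro W V
    have h1 := hp W V
    have h2 : ∑ w ∈ (assoc K ψ).coeff.support, (Nz ℤ w W V) • cM w = 0 := by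
      apply Subtype.ext
      change M.subtype (∑ w ∈ (assoc K ψ).coeff.support, (Nz ℤ w W V) • cM w) = 0
      rw [map_sum, ← h1, Finsupp.sum]
      refine Finset.sum_congr rfl (fun w _ => ?_)
      rw [map_zsmul, zsmul_eq_mul, mul_comm]
      rfl
    have h3 := congrArg g h2
    rw [map_sum, map_zero] at h3
    rw [Finsupp.sum_of_support_subset (s := (assoc K ψ).coeff.support) _
      Finsupp.support_onFinset_subset _ (by intro i _; rw [zero_mul])]
    refine Eq.trans ?_ h3
    refine Finset.sum_congr rfl (fun w _ => ?_)
    rw [map_zsmul, zsmul_eq_mul, mul_comm, hcb]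
  have hfin := char_two (k := ZMod 2) (by decide) (MonoidAlgebra.ofCoeff cb) hp2 hgd hones
  apply hw0
  have h9 : cb w0 = 0 := by
    have h8 := congrArg (fun X : AA (ZMod 2) => X.coeff w0) hfin
    simpa using h8
  rw [hcb] at h9
  exact h9

end CharZero

end MP446Y
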