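import Pool.Agent.Lib.MP_446dfa_ag.helper66.RingR
import Pool.Agent.Lib.MP_446dfa_ag.helper2.Defs

set_option linter.all false

/-!
# The action of `𝔱₄` on `R = k⟨x, u, b⟩ / (u², b²)`
-/

noncomputable section

namespace MP446Y

universe v

attribute [local instance 100] LieRing.ofAssociativeRing

variable (k : Type v) [CommRing k]

/-- `x` -/
abbrev gx : RR k := gen k 0
/-- `u` -/
abbrev gu : RR k := gen k 1
/-- `b` -/
abbrev gb : RR k := gen k 2

/-- the derivation `a`: `u ↦ [u, x]`, `x, b ↦ 0` -/
def aD : DData k where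
  d := ![0, gu k * gx k - gx k * gu k, 0]
  h1 := by
    change gu k * (gu k * gx k - gx k * gu k) + (gu k * gx k - gx k * gu k) * gu k = 0
    have h := gen_one_sq k
    have e : gu k * (gu k * gx k - gx k * gu k) + (gu k * gx k - gx k * gu k) * gu k =
      (gu k * gu k) * gx k - gx k * (gu k * gu k) := by
      simp only [mul_add, add_mul, mul_sub, sub_mul, mul_neg, neg_mul, mul_assoc, mul_zero,
        zero_mul]
      abel
    rw [e, h]; simp
  h2 := by
    change gen k 2 * 0 + 0 * gen k 2 = 0
    simp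

/-- the derivation `c`: `x, u ↦ [u, b]`, `b ↦ -[u, b]` -/
def cD : DData k where
  d := ![gu k * gb k - gb k * gu k, gu k * gb k - gb k * gu k, -(gu k * gb k - gb k * gu k)]
  h1 := by
    change gu k * (gu k * gb k - gb k * gu k) + (gu k * gb k - gb k * gu k) * gu k = 0
    have h := gen_one_sq k
    have e : gu k * (gu k * gb k - gb k * gu k) + (gu k * gb k - gb k * gu k) * gu k =
      (gu k * gu k) * gb k - gb k * (gu k * gu k) := by
      simp only [mul_add, add_mul, mul_sub, sub_mul, mul_neg, neg_mul, mul_assoc, mul_zero,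
        zero_mul]
      abel
    rw [e, h]; simp
  h2 := by
    change gb k * -(gu k * gb k - gb k * gu k) + -(gu k * gb k - gb k * gu k) * gb k = 0
    have h := gen_two_sq k
    have e : gb k * -(gu k * gb k - gb k * gu k) + -(gu k * gb k - gb k * gu k) * gb k =
      (gb k * gb k) * gu k - gu k * (gb k * gb k) := by
      simp only [mul_add, add_mul, mul_sub, sub_mul, mul_neg, neg_mul, mul_assoc, mul_zero,
        zero_mul]
      abel
    rw [e, h]; simp

/-- the operator `a` -/
def oA : Module.End k (RR k) := der (aD k)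
/-- the operator `c` -/
def oC : Module.End k (RR k) := der (cD k)
/-- left multiplication -/
def oL (r : RR k) : Module.End k (RR k) := Algebra.lmul k (RR k) r

@[simp] lemma oL_apply (r s : RR k) : oL k r s = r * s := rfl
lemma oL_mul (r s : RR k) : oL k (r * s) = oL k r * oL k s := by unfold oL; rw [map_mul]
lemma oL_add (r s : RR k) : oL k (r + s) = oL k r + oL k s := by unfold oL; rw [map_add]
lemma oL_sub (r s : RR k) : oL k (r - s) = oL k r - oL k s := by unfold oL; rw [map_sub]

lemma oA_mul (r s : RR k) : oA k (r * s) = r * oA k s + oA k r * s := der_mul _ _ _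
lemma oC_mul (r s : RR k) : oC k (r * s) = r * oC k s + oC k r * s := der_mul _ _ _

@[simp] lemma oA_x : oA k (gen k 0) = 0 := der_gen _ _
@[simp] lemma oA_u : oA k (gen k 1) = gen k 1 * gen k 0 - gen k 0 * gen k 1 := der_gen _ _
@[simp] lemma oA_b : oA k (gen k 2) = 0 := der_gen _ _
@[simp] lemma oC_x : oC k (gen k 0) = gen k 1 * gen k 2 - gen k 2 * gen k 1 := der_gen _ _
@[simp] lemma oC_u : oC k (gen k 1) = gen k 1 * gen k 2 - gen k 2 * gen k 1 := der_gen _ _
@[simp] lemma oC_b : oC k (gen k 2) = -(gen k 1 * gen k 2 - gen k 2 * gen k 1) := der_gen _ _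

lemma oA_oL (r : RR k) : oA k * oL k r = oL k r * oA k + oL k (oA k r) := by
  apply LinearMap.ext
  intro s
  simp [Module.End.mul_apply, oA_mul]

lemma oC_oL (r : RR k) : oC k * oL k r = oL k r * oC k + oL k (oC k r) := by
  apply LinearMap.ext
  intro s
  simp [Module.End.mul_apply, oC_mul]

/-- the operator of `t₁₃` -/
def oG : Module.End k (RR k) := oL k (gx k - gu k)
/-- the operator of `t₁₄` -/
def oH : Module.End k (RR k) := -(oA k + oC k + oL k (gx k + gb k))

/-- the family of operators satisfying the infinitesimal braid relations -/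
def tt : Fin 4 → Fin 4 → Module.End k (RR k) :=
  ![![0, oA k, oG k, oH k], ![oA k, 0, oL k (gu k), oC k],
    ![oG k, oL k (gu k), 0, oL k (gb k)], ![oH k, oC k, oL k (gb k), 0]]

lemma r1 : oA k * oL k (gb k) = oL k (gb k) * oA k := by
  apply LinearMap.ext; intro r
  simp only [oG, oH, Module.End.mul_apply, LinearMap.add_apply, LinearMap.neg_apply, map_add,
    map_neg, map_sub, oL_apply, oA_mul, oC_mul, oA_x, oA_u, oA_b, oC_x, oC_u, oC_b, gx, gu, gb]
  simp only [mul_add, add_mul, mul_sub, sub_mul, mul_neg, neg_mul, mul_assoc, mul_zero, zero_mul]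
  try abel
lemma r2 : oG k * oC k = oC k * oG k := by
  apply LinearMap.ext; intro r
  simp only [oG, oH, Module.End.mul_apply, LinearMap.add_apply, LinearMap.neg_apply, map_add,
    map_neg, map_sub, oL_apply, oA_mul, oC_mul, oA_x, oA_u, oA_b, oC_x, oC_u, oC_b, gx, gu, gb]
  simp only [mul_add, add_mul, mul_sub, sub_mul, mul_neg, neg_mul, mul_assoc, mul_zero, zero_mul]
  try abel
lemma r3 : oH k * oL k (gu k) = oL k (gu k) * oH k := by
  apply LinearMap.ext; intro r
  simp only [oG, oH, Module.End.mul_apply, LinearMap.add_apply, LinearMap.neg_apply, map_add,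
    map_neg, map_sub, oL_apply, oA_mul, oC_mul, oA_x, oA_u, oA_b, oC_x, oC_u, oC_b, gx, gu, gb]
  simp only [mul_add, add_mul, mul_sub, sub_mul, mul_neg, neg_mul, mul_assoc, mul_zero, zero_mul]
  try abel
lemma s1 : oA k * (oG k + oL k (gu k)) = (oG k + oL k (gu k)) * oA k := by
  apply LinearMap.ext; intro r
  simp only [oG, oH, Module.End.mul_apply, LinearMap.add_apply, LinearMap.neg_apply, map_add,
    map_neg, map_sub, oL_apply, oA_mul, oC_mul, oA_x, oA_u, oA_b, oC_x, oC_u, oC_b, gx, gu, gb]
  simp only [mul_add, add_mul, mul_sub, sub_mul, mul_neg, neg_mul, mul_assoc, mul_zero, zero_mul]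
  try abel
lemma s2 : oA k * (oH k + oC k) = (oH k + oC k) * oA k := by
  apply LinearMap.ext; intro r
  simp only [oG, oH, Module.End.mul_apply, LinearMap.add_apply, LinearMap.neg_apply, map_add,
    map_neg, map_sub, oL_apply, oA_mul, oC_mul, oA_x, oA_u, oA_b, oC_x, oC_u, oC_b, gx, gu, gb]
  simp only [mul_add, add_mul, mul_sub, sub_mul, mul_neg, neg_mul, mul_assoc, mul_zero, zero_mul]
  try abel
lemma s3 : oG k * (oA k + oL k (gu k)) = (oA k + oL k (gu k)) * oG k := by
  apply LinearMap.ext; intro r
  simp only [oG, oH, Module.End.mul_apply, LinearMap.add_apply, LinearMap.neg_apply, map_add,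
    map_neg, map_sub, oL_apply, oA_mul, oC_mul, oA_x, oA_u, oA_b, oC_x, oC_u, oC_b, gx, gu, gb]
  simp only [mul_add, add_mul, mul_sub, sub_mul, mul_neg, neg_mul, mul_assoc, mul_zero, zero_mul]
  try abel
lemma s4 : oG k * (oH k + oL k (gb k)) = (oH k + oL k (gb k)) * oG k := by
  apply LinearMap.ext; intro r
  simp only [oG, oH, Module.End.mul_apply, LinearMap.add_apply, LinearMap.neg_apply, map_add,
    map_neg, map_sub, oL_apply, oA_mul, oC_mul, oA_x, oA_u, oA_b, oC_x, oC_u, oC_b, gx, gu, gb]
  simp only [mul_add, add_mul, mul_sub, sub_mul, mul_neg, neg_mul, mul_assoc, mul_zero, zero_mul]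
  try abel
lemma s5 : oH k * (oA k + oC k) = (oA k + oC k) * oH k := by
  apply LinearMap.ext; intro r
  simp only [oG, oH, Module.End.mul_apply, LinearMap.add_apply, LinearMap.neg_apply, map_add,
    map_neg, map_sub, oL_apply, oA_mul, oC_mul, oA_x, oA_u, oA_b, oC_x, oC_u, oC_b, gx, gu, gb]
  simp only [mul_add, add_mul, mul_sub, sub_mul, mul_neg, neg_mul, mul_assoc, mul_zero, zero_mul]
  try abel
lemma s6 : oH k * (oG k + oL k (gb k)) = (oG k + oL k (gb k)) * oH k := by
  apply LinearMap.ext; intro r
  simp only [oG, oH, Module.End.mul_apply, LinearMap.add_apply, LinearMap.neg_apply, map_add,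
    map_neg, map_sub, oL_apply, oA_mul, oC_mul, oA_x, oA_u, oA_b, oC_x, oC_u, oC_b, gx, gu, gb]
  simp only [mul_add, add_mul, mul_sub, sub_mul, mul_neg, neg_mul, mul_assoc, mul_zero, zero_mul]
  try abel
lemma s7 : oL k (gu k) * (oA k + oG k) = (oA k + oG k) * oL k (gu k) := by
  apply LinearMap.ext; intro r
  simp only [oG, oH, Module.End.mul_apply, LinearMap.add_apply, LinearMap.neg_apply, map_add,
    map_neg, map_sub, oL_apply, oA_mul, oC_mul, oA_x, oA_u, oA_b, oC_x, oC_u, oC_b, gx, gu, gb]
  simp only [mul_add, add_mul, mul_sub, sub_mul, mul_neg, neg_mul, mul_assoc, mul_zero, zero_mul]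
  try abel
lemma s8 : oL k (gu k) * (oC k + oL k (gb k)) = (oC k + oL k (gb k)) * oL k (gu k) := by
  apply LinearMap.ext; intro r
  simp only [oG, oH, Module.End.mul_apply, LinearMap.add_apply, LinearMap.neg_apply, map_add,
    map_neg, map_sub, oL_apply, oA_mul, oC_mul, oA_x, oA_u, oA_b, oC_x, oC_u, oC_b, gx, gu, gb]
  simp only [mul_add, add_mul, mul_sub, sub_mul, mul_neg, neg_mul, mul_assoc, mul_zero, zero_mul]
  try abel
lemma s9 : oC k * (oA k + oH k) = (oA k + oH k) * oC k := by
  apply LinearMap.ext; intro r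
  simp only [oG, oH, Module.End.mul_apply, LinearMap.add_apply, LinearMap.neg_apply, map_add,
    map_neg, map_sub, oL_apply, oA_mul, oC_mul, oA_x, oA_u, oA_b, oC_x, oC_u, oC_b, gx, gu, gb]
  simp only [mul_add, add_mul, mul_sub, sub_mul, mul_neg, neg_mul, mul_assoc, mul_zero, zero_mul]
  try abel
lemma s10 : oC k * (oL k (gu k) + oL k (gb k)) = (oL k (gu k) + oL k (gb k)) * oC k := by
  apply LinearMap.ext; intro r
  simp only [oG, oH, Module.End.mul_apply, LinearMap.add_apply, LinearMap.neg_apply, map_add,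
    map_neg, map_sub, oL_apply, oA_mul, oC_mul, oA_x, oA_u, oA_b, oC_x, oC_u, oC_b, gx, gu, gb]
  simp only [mul_add, add_mul, mul_sub, sub_mul, mul_neg, neg_mul, mul_assoc, mul_zero, zero_mul]
  try abel
lemma s11 : oL k (gb k) * (oG k + oH k) = (oG k + oH k) * oL k (gb k) := by
  apply LinearMap.ext; intro r
  simp only [oG, oH, Module.End.mul_apply, LinearMap.add_apply, LinearMap.neg_apply, map_add,
    map_neg, map_sub, oL_apply, oA_mul, oC_mul, oA_x, oA_u, oA_b, oC_x, oC_u, oC_b, gx, gu, gb]
  simp only [mul_add, add_mul, mul_sub, sub_mul, mul_neg, neg_mul, mul_assoc, mul_zero, zero_mul]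
  try abel
lemma s12 : oL k (gb k) * (oL k (gu k) + oC k) = (oL k (gu k) + oC k) * oL k (gb k) := by
  apply LinearMap.ext; intro r
  simp only [oG, oH, Module.End.mul_apply, LinearMap.add_apply, LinearMap.neg_apply, map_add,
    map_neg, map_sub, oL_apply, oA_mul, oC_mul, oA_x, oA_u, oA_b, oC_x, oC_u, oC_b, gx, gu, gb]
  simp only [mul_add, add_mul, mul_sub, sub_mul, mul_neg, neg_mul, mul_assoc, mul_zero, zero_mul]
  try abel

lemma lie0 {A : Type*} [Ring A] {x y : A} (h : x * y = y * x) : ⁅x, y⁆ = 0 := by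
  rw [LieRing.of_associative_ring_bracket, h, sub_self]

lemma tt_infBraid : MP446.InfBraid (tt k) where
  symm := by
    intro i j
    fin_cases i <;> fin_cases j <;> rfl
  comm := by
    intro i j l m h1 h2 h3 h4 h5 h6
    apply lie0
    fin_cases i <;> fin_cases j <;> try (exact absurd rfl h1)
    all_goals fin_cases l <;> try (exact absurd rfl h2)
    all_goals try (exact absurd rfl h4)
    all_goals fin_cases m <;> try (exact absurd rfl h3)
    all_goals try (exact absurd rfl h5)
    all_goals try (exact absurd rfl h6)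
    all_goals first | exact r1 k | exact (r1 k).symm | exact r2 k | exact (r2 k).symm | exact r3 k | exact (r3 k).symm
  rel := by
    intro i j l h1 h2 h4
    apply lie0
    fin_cases i <;> fin_cases j <;> try (exact absurd rfl h1)
    all_goals fin_cases l <;> try (exact absurd rfl h2)
    all_goals try (exact absurd rfl h4)
    all_goals first | exact s1 k | exact s2 k | exact s3 k | exact s4 k | exact s5 k | exact s6 k | exact s7 k | exact s8 k | exact s9 k | exact s10 k | exact s11 k | exact s12 k | (rw [add_comm]; first | exact s1 k | exact s2 k | exact s3 k | exact s4 k | exact s5 k | exact s6 k | exact s7 k | exact s8 k | exact s9 k | exact s10 k | exact s11 k | exact s12 k)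

end MP446Y
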