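import Pool.Agent.Lib.MP_446dfa_ag.helper66.LieW

set_option linter.all false

/-!
# Reduction modulo two
-/

noncomputable section

namespace MP446Y

open MP446

universe u v

attribute [local instance 100] LieRing.ofAssociativeRing

/-! ### Injectivity of the embedding in the algebra of non-commutative polynomials -/

section Inj

variable {K : Type u} [Field K]

/-- auxiliary operator -/
def auxO (z : F2 K) : Module.End K (F2 K × K) where
  toFun p := (⁅z, p.1⁆ + p.2 • z, 0)
  map_add' p q := by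
    ext <;> simp [add_smul]; abel
  map_smul' c p := by
    ext <;> simp [mul_smul]

/-- auxiliary representation -/
def auxR : AA K →ₐ[K] Module.End K (F2 K × K) := EV (auxO (gA K)) (auxO (gB K))

lemma auxR_assoc (P : F2 K) : ∃ E : F2 K, ∀ p : F2 K × K,
    auxR (assoc K P) p = (⁅P, p.1⁆ + p.2 • E, 0) := by
  induction P using F2_induction with
  | hA =>
    refine ⟨gA K, fun p => ?_⟩
    rw [assoc_gA, auxR, EV_lt_zero]
    rfl
  | hB =>
    refine ⟨gB K, fun p => ?_⟩
    rw [assoc_gB, auxR, EV_lt_one]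
    rfl
  | hadd x y hx hy =>
    obtain ⟨E, hE⟩ := hx
    obtain ⟨F, hF⟩ := hy
    refine ⟨E + F, fun p => ?_⟩
    rw [map_add, map_add, LinearMap.add_apply, hE, hF]
    ext <;> simp
    abel
  | hsmul c x hx =>
    obtain ⟨E, hE⟩ := hx
    refine ⟨c • E, fun p => ?_⟩
    rw [map_smul, map_smul, LinearMap.smul_apply, hE]
    ext <;> simp
    rw [smul_comm]
  | hlie x y hx hy =>
    obtain ⟨E, hE⟩ := hx
    obtain ⟨F, hF⟩ := hy
    refine ⟨⁅x, F⁆ - ⁅y, E⁆, fun p => ?_⟩
    rw [LieHom.map_lie, LieRing.of_associative_ring_bracket, map_sub, map_mul, map_mul,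
      LinearMap.sub_apply, Module.End.mul_apply, Module.End.mul_apply, hE, hF, hE, hF]
    ext
    · simp only [Prod.fst_sub, zero_smul, add_zero, lie_add, lie_smul, smul_sub]
      rw [leibniz_lie x y p.1]
      abel
    · simp

/-- The derivation of degree. -/
def eulr : F2 K →ₗ[K] F2 K where
  toFun P := (auxR (assoc K P) (0, 1)).1
  map_add' x y := by rw [map_add, map_add]; rfl
  map_smul' c x := by rw [map_smul, map_smul]; rfl

lemma eulr_lie (x y : F2 K) : eulr ⁅x, y⁆ = ⁅x, eulr y⁆ + ⁅eulr x, y⁆ := by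
  obtain ⟨E, hE⟩ := auxR_assoc x
  obtain ⟨F, hF⟩ := auxR_assoc y
  have e1 : eulr x = E := by
    change (auxR (assoc K x) (0, 1)).1 = E
    rw [hE]; simp
  have e2 : eulr y = F := by
    change (auxR (assoc K y) (0, 1)).1 = F
    rw [hF]; simp
  change (auxR (assoc K ⁅x, y⁆) (0, 1)).1 = _
  rw [LieHom.map_lie, LieRing.of_associative_ring_bracket, map_sub, map_mul, map_mul,
      LinearMap.sub_apply, Module.End.mul_apply, Module.End.mul_apply, hE, hF, hE, hF, e1, e2]
  simp only [Prod.fst_sub, zero_smul, add_zero, lie_zero, zero_add, one_smul]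
  rw [← lie_skew E y]
  abel

lemma eulr_gA : eulr (gA K) = gA K := by
  change (auxR (assoc K (gA K)) (0, 1)).1 = _
  rw [assoc_gA, auxR, EV_lt_zero]
  simp [auxO]

lemma eulr_gB : eulr (gB K) = gB K := by
  change (auxR (assoc K (gB K)) (0, 1)).1 = _
  rw [assoc_gB, auxR, EV_lt_one]
  simp [auxO]

lemma eulr_top [CharZero K] :
    (⨆ (μ : K) (_ : μ ≠ 0), Module.End.eigenspace (eulr : Module.End K (F2 K)) μ) = ⊤ := by
  have key : ∀ x : F2 K, x ∈ Submodule.span K
      {y : F2 K | ∃ n : ℕ, eulr y = ((n + 1 : ℕ) : K) • y} := by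
    intro x
    induction x using F2_induction with
    | hA => exact Submodule.subset_span ⟨0, by simp [eulr_gA]⟩
    | hB => exact Submodule.subset_span ⟨0, by simp [eulr_gB]⟩
    | hadd x y hx hy => exact Submodule.add_mem _ hx hy
    | hsmul c x hx => exact Submodule.smul_mem _ _ hx
    | hlie x y hx hy =>
      refine Submodule.span_induction (p := fun a _ => ⁅a, y⁆ ∈ Submodule.span K
        {y : F2 K | ∃ n : ℕ, eulr y = ((n + 1 : ℕ) : K) • y}) ?_ ?_ ?_ ?_ hx
      · rintro x ⟨n, hn⟩
        refine Submodule.span_induction (p := fun b _ => ⁅x, b⁆ ∈ Submodule.span K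
          {y : F2 K | ∃ n : ℕ, eulr y = ((n + 1 : ℕ) : K) • y}) ?_ ?_ ?_ ?_ hy
        · rintro y ⟨m, hm⟩
          refine Submodule.subset_span ⟨n + m + 1, ?_⟩
          rw [eulr_lie, hn, hm, lie_smul, smul_lie, ← add_smul]
          congr 1
          push_cast
          ring
        · simp
        · intro a b _ _ ha hb
          rw [lie_add]; exact Submodule.add_mem _ ha hb
        · intro c a _ ha
          rw [lie_smul]; exact Submodule.smul_mem _ _ ha
      · simp
      · intro a b _ _ ha hb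
        rw [add_lie]; exact Submodule.add_mem _ ha hb
      · intro c a _ ha
        rw [smul_lie]; exact Submodule.smul_mem _ _ ha
  rw [eq_top_iff]
  rintro x -
  refine (Submodule.span_le.2 ?_) (key x)
  rintro y ⟨n, hn⟩
  have hne : ((n + 1 : ℕ) : K) ≠ 0 := by exact_mod_cast Nat.succ_ne_zero n
  exact Submodule.mem_iSup_of_mem _ (Submodule.mem_iSup_of_mem hne
    (Module.End.mem_eigenspace_iff.2 hn))

/-- The free Lie algebra embeds into the algebra of non-commutative polynomials. -/
lemma assoc_injective [CharZero K] : Function.Injective (assoc K) := by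
  rw [injective_iff_map_eq_zero]
  intro P hP
  have h1 : eulr P = 0 := by
    change (auxR (assoc K P) (0, 1)).1 = 0
    rw [hP]
    change (auxR (0 : AA K) (0, 1)).1 = 0
    rw [map_zero]; rfl
  have h2 := Module.End.eigenspaces_iSupIndep (eulr : Module.End K (F2 K))
  have h3 := h2 0
  rw [eulr_top] at h3
  have h4 : P ∈ Module.End.eigenspace (eulr : Module.End K (F2 K)) 0 := by
    rw [Module.End.mem_eigenspace_iff, h1, zero_smul]
  rw [disjoint_top] at h3
  rw [h3] at h4
  exact (Submodule.mem_bot K).1 h4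

end Inj

/-! ### Additive functionals on a finitely generated subgroup -/

section Red

variable {K : Type u} [Field K] [CharZero K]

lemma exists_red (X : AA K) (hX : X ≠ 0) :
    ∃ (M : Submodule ℤ K) (g : M →+ ZMod 2) (hM : ∀ w, X.coeff w ∈ M),
      ∃ w, g ⟨X.coeff w, hM w⟩ ≠ 0 := by
  classical
  set M : Submodule ℤ K := Submodule.span ℤ (Set.range X.coeff) with hMdef
  have hM : ∀ w, X.coeff w ∈ M := fun w => Submodule.subset_span ⟨w, rfl⟩
  have hfin : (Set.range X.coeff).Finite := Finsupp.finite_range X.coeff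
  haveI : Module.Finite ℤ M := Module.Finite.span_of_finite ℤ hfin
  haveI : Module.Free ℤ M := inferInstance
  obtain ⟨w0, hw0⟩ : ∃ w, X.coeff w ≠ 0 := by
    by_contra h
    push Not at h
    apply hX
    ext w
    rw [h]
    simp
  haveI : Nontrivial M := ⟨⟨⟨X.coeff w0, hM w0⟩, 0, fun h => hw0 (congrArg Subtype.val h)⟩⟩
  let b := Module.Free.chooseBasis ℤ M
  obtain ⟨i⟩ : Nonempty (Module.Free.ChooseBasisIndex ℤ M) := b.index_nonempty
  let g : M →+ ZMod 2 := (Int.castAddHom (ZMod 2)).comp (b.coord i).toAddMonoidHom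
  refine ⟨M, g, hM, ?_⟩
  by_contra hcon
  push Not at hcon
  have h1 : ∀ (m : K) (hm : m ∈ M), g ⟨m, hm⟩ = 0 := by
    intro m hm
    refine Submodule.span_induction (p := fun a ha => g ⟨a, ha⟩ = 0) ?_ ?_ ?_ ?_ hm
    · rintro x ⟨w, rfl⟩
      exact hcon w
    · exact map_zero g
    · intro x y hx hy h3 h4
      have : (⟨x + y, M.add_mem hx hy⟩ : M) = ⟨x, hx⟩ + ⟨y, hy⟩ := rfl
      change g (⟨x + y, M.add_mem hx hy⟩ : M) = 0
      rw [this, map_add, h3, h4, add_zero]
    · intro n x hx h3
      have : (⟨n • x, M.smul_mem n hx⟩ : M) = n • ⟨x, hx⟩ := rfl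
      change g (⟨n • x, M.smul_mem n hx⟩ : M) = 0
      rw [this, map_zsmul, h3, smul_zero]
  have h2 := h1 (b i) (b i).2
  have h3 : g (b i) = 1 := by
    change ((b.coord i (b i) : ℤ) : ZMod 2) = 1
    rw [Module.Basis.coord_apply, Module.Basis.repr_self, Finsupp.single_eq_same]
    simp
  rw [show (⟨(b i : K), (b i).2⟩ : M) = b i from rfl, h3] at h2
  exact one_ne_zero h2

end Red

end MP446Y
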