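import Mathlib

set_option linter.all false

/-!
# The ring `R = k⟨x, u, b⟩ / (u², b²)` and its derivations
-/

noncomputable section

namespace MP446Y

universe v

section Basic

variable (k : Type v) [CommRing k]

/-- the relations `u² = 0`, `b² = 0` -/
inductive Rel : FreeAlgebra k (Fin 3) → FreeAlgebra k (Fin 3) → Prop
  | uu : Rel (FreeAlgebra.ι k 1 * FreeAlgebra.ι k 1) 0
  | bb : Rel (FreeAlgebra.ι k 2 * FreeAlgebra.ι k 2) 0

/-- the ring `k⟨x, u, b⟩ / (u², b²)` -/
def RR : Type v := RingQuot (Rel k)

instance : Ring (RR k) := inferInstanceAs (Ring (RingQuot (Rel k)))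
instance : Algebra k (RR k) := inferInstanceAs (Algebra k (RingQuot (Rel k)))

/-- the canonical homomorphism -/
def mkR : FreeAlgebra k (Fin 3) →ₐ[k] RR k := RingQuot.mkAlgHom k (Rel k)

lemma mkR_surjective : Function.Surjective (mkR k) := RingQuot.mkAlgHom_surjective k (Rel k)

lemma mkR_rel {x y : FreeAlgebra k (Fin 3)} (h : Rel k x y) : mkR k x = mkR k y :=
  RingQuot.mkAlgHom_rel k h

/-- the generators `x = gen 0`, `u = gen 1`, `b = gen 2` -/
def gen (i : Fin 3) : RR k := mkR k (FreeAlgebra.ι k i)

lemma gen_one_sq : gen k 1 * gen k 1 = 0 := by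
  unfold gen
  rw [← map_mul, mkR_rel k Rel.uu, map_zero]

lemma gen_two_sq : gen k 2 * gen k 2 = 0 := by
  unfold gen
  rw [← map_mul, mkR_rel k Rel.bb, map_zero]

variable {k}

/-- the universal property -/
def liftR {A : Type*} [Ring A] [Algebra k A] (f : Fin 3 → A) (h1 : f 1 * f 1 = 0)
    (h2 : f 2 * f 2 = 0) : RR k →ₐ[k] A :=
  (RingQuot.liftAlgHom k ⟨FreeAlgebra.lift k f, by
    intro x y h
    cases h with
    | uu => rw [map_mul, FreeAlgebra.lift_ι_apply, h1, map_zero]
    | bb => rw [map_mul, FreeAlgebra.lift_ι_apply, h2, map_zero]⟩ : RingQuot (Rel k) →ₐ[k] A)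

@[simp] lemma liftR_gen {A : Type*} [Ring A] [Algebra k A] (f : Fin 3 → A) (h1 : f 1 * f 1 = 0)
    (h2 : f 2 * f 2 = 0) (i : Fin 3) : liftR f h1 h2 (gen k i) = f i := by
  have h := RingQuot.liftAlgHom_mkAlgHom_apply k (FreeAlgebra.lift k f) (s := Rel k) (by
    intro x y h
    cases h with
    | uu => rw [map_mul, FreeAlgebra.lift_ι_apply, h1, map_zero]
    | bb => rw [map_mul, FreeAlgebra.lift_ι_apply, h2, map_zero]) (FreeAlgebra.ι k i)
  exact h.trans (FreeAlgebra.lift_ι_apply f i)

/-- induction -/
lemma RR_induction {P : RR k → Prop} (halg : ∀ c : k, P (algebraMap k (RR k) c))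
    (hgen : ∀ i, P (gen k i)) (hadd : ∀ x y, P x → P y → P (x + y))
    (hmul : ∀ x y, P x → P y → P (x * y)) (r : RR k) : P r := by
  obtain ⟨f, rfl⟩ := mkR_surjective k r
  induction f using FreeAlgebra.induction with
  | grade0 c => rw [AlgHom.commutes]; exact halg c
  | grade1 i => exact hgen i
  | mul x y hx hy => rw [map_mul]; exact hmul _ _ hx hy
  | add x y hx hy => rw [map_add]; exact hadd _ _ hx hy

end Basic

section Deriv

variable {k : Type v} [CommRing k]

/-- data of a derivation of `R`: its values on the generators -/
structure DData (k : Type v) [CommRing k] where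
  d : Fin 3 → RR k
  h1 : gen k 1 * d 1 + d 1 * gen k 1 = 0
  h2 : gen k 2 * d 2 + d 2 * gen k 2 = 0

/-- auxiliary homomorphism to the dual numbers -/
def dualR (D : DData k) : RR k →ₐ[k] TrivSqZeroExt (RR k) (RR k) :=
  liftR (fun i => TrivSqZeroExt.inl (gen k i) + TrivSqZeroExt.inr (D.d i))
    (by
      ext
      · simp [gen_one_sq]
      · simpa using D.h1)
    (by
      ext
      · simp [gen_two_sq]
      · simpa using D.h2)

lemma dualR_fst (D : DData k) (r : RR k) : (dualR D r).fst = r := by
  induction r using RR_induction with
  | halg c => rw [AlgHom.commutes]; rfl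
  | hgen i => simp [dualR]
  | hadd x y hx hy => rw [map_add, TrivSqZeroExt.fst_add, hx, hy]
  | hmul x y hx hy => rw [map_mul, TrivSqZeroExt.fst_mul, hx, hy]

/-- the derivation with given values on the generators -/
def der (D : DData k) : RR k →ₗ[k] RR k where
  toFun r := (dualR D r).snd
  map_add' x y := by rw [map_add]; rfl
  map_smul' c x := by rw [map_smul]; rfl

@[simp] lemma der_mul (D : DData k) (r s : RR k) : der D (r * s) = r * der D s + der D r * s := by
  change (dualR D (r * s)).snd = r * (dualR D s).snd + (dualR D r).snd * s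
  rw [map_mul, TrivSqZeroExt.snd_mul, dualR_fst, dualR_fst]
  rfl

@[simp] lemma der_gen (D : DData k) (i : Fin 3) : der D (gen k i) = D.d i := by
  change (dualR D (gen k i)).snd = _
  simp [dualR]

@[simp] lemma der_algebraMap (D : DData k) (c : k) : der D (algebraMap k (RR k) c) = 0 := by
  change (dualR D (algebraMap k (RR k) c)).snd = _
  rw [AlgHom.commutes]
  rfl

@[simp] lemma der_one (D : DData k) : der D 1 = 0 := by
  have := der_algebraMap D (1 : k)
  rwa [map_one] at this

end Deriv

section Coeff

variable (k : Type v) [CommRing k]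

/-- prepending a letter to a word is not allowed -/
def bad (i : Fin 3) : List (Fin 3) → Bool
  | [] => false
  | j :: _ => (i ≠ 0 ∧ i = j)

/-- the operator of left multiplication by a letter on the space of words -/
def opL (i : Fin 3) : Module.End k (List (Fin 3) →₀ k) :=
  Finsupp.linearCombination k (fun W => if bad i W then 0 else Finsupp.single (i :: W) 1)

lemma opL_single (i : Fin 3) (W : List (Fin 3)) (c : k) :
    opL k i (Finsupp.single W c) = if bad i W then 0 else Finsupp.single (i :: W) c := by
  unfold opL
  rw [Finsupp.linearCombination_single]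
  split_ifs <;> simp

lemma opL_sq (i : Fin 3) (hi : i ≠ 0) : opL k i * opL k i = 0 := by
  apply Finsupp.lhom_ext
  intro W c
  rw [Module.End.mul_apply, opL_single]
  split_ifs with h
  · simp
  · rw [opL_single, if_pos (by simp [bad, hi])]
    rfl

/-- the action of `R` on the space of words -/
def act : RR k →ₐ[k] Module.End k (List (Fin 3) →₀ k) :=
  liftR (opL k) (opL_sq k 1 (by decide)) (opL_sq k 2 (by decide))

/-- the coefficients of an element of `R` -/
def rho : RR k →ₗ[k] (List (Fin 3) →₀ k) where
  toFun r := act k r (Finsupp.single [] 1)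
  map_add' x y := by rw [map_add]; rfl
  map_smul' c x := by rw [map_smul]; rfl

/-- the product of the letters of a word -/
def pw (W : List (Fin 3)) : RR k := (W.map (gen k)).prod

@[simp] lemma pw_nil : pw k [] = 1 := rfl
@[simp] lemma pw_cons (i : Fin 3) (W : List (Fin 3)) : pw k (i :: W) = gen k i * pw k W := by
  simp [pw]
lemma pw_append (W W' : List (Fin 3)) : pw k (W ++ W') = pw k W * pw k W' := by
  simp [pw]

/-- from words to `R` -/
def tau : (List (Fin 3) →₀ k) →ₗ[k] RR k := Finsupp.linearCombination k (pw k)

lemma tau_single (W : List (Fin 3)) (c : k) : tau k (Finsupp.single W c) = c • pw k W := by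
  unfold tau; rw [Finsupp.linearCombination_single]

lemma tau_opL (i : Fin 3) (v : List (Fin 3) →₀ k) : tau k (opL k i v) = gen k i * tau k v := by
  induction v using Finsupp.induction_linear with
  | zero => simp
  | add f g hf hg => rw [map_add, map_add, map_add, hf, hg, mul_add]
  | single W c =>
    rw [opL_single, tau_single]
    split_ifs with h
    · cases W with
      | nil => simp [bad] at h
      | cons j W =>
        simp only [bad, decide_eq_true_eq] at h
        obtain ⟨h1, h2⟩ := h
        subst h2
        rw [map_zero, pw_cons, mul_smul_comm, ← mul_assoc]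
        have : gen k i * gen k i = 0 := by
          fin_cases i
          · simp at h1
          · exact gen_one_sq k
          · exact gen_two_sq k
        rw [this, zero_mul, smul_zero]
    · rw [tau_single, pw_cons, mul_smul_comm]

lemma tau_act (r : RR k) (v : List (Fin 3) →₀ k) : tau k (act k r v) = r * tau k v := by
  induction r using RR_induction generalizing v with
  | halg c =>
    rw [AlgHom.commutes, Module.algebraMap_end_apply, map_smul, Algebra.smul_def]
  | hgen i => rw [act, liftR_gen, tau_opL]
  | hadd x y hx hy => rw [map_add, LinearMap.add_apply, map_add, hx, hy, add_mul]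
  | hmul x y hx hy => rw [map_mul, Module.End.mul_apply, hx, hy, mul_assoc]

lemma tau_rho (r : RR k) : tau k (rho k r) = r := by
  change tau k (act k r _) = r
  rw [tau_act, tau_single, pw_nil, one_smul, mul_one]

lemma rho_injective : Function.Injective (rho k) := by
  intro x y h
  rw [← tau_rho k x, h, tau_rho]

lemma rho_gen_mul (i : Fin 3) (r : RR k) : rho k (gen k i * r) = opL k i (rho k r) := by
  change act k (gen k i * r) _ = _
  rw [map_mul, Module.End.mul_apply, act, liftR_gen]
  rfl

@[simp] lemma rho_one : rho k 1 = Finsupp.single [] 1 := by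
  change act k 1 _ = _
  rw [map_one]; rfl

/-- reduced words: words without factor `uu` or `bb` -/
def Rd : List (Fin 3) → Bool
  | [] => true
  | i :: W => !(bad i W) && Rd W

lemma rho_pw (W : List (Fin 3)) : rho k (pw k W) = if Rd W then Finsupp.single W 1 else 0 := by
  induction W with
  | nil => simp [Rd]
  | cons i W ih =>
    rw [pw_cons, rho_gen_mul, ih]
    by_cases h : Rd W = true
    · rw [if_pos h, opL_single]
      by_cases h2 : bad i W = true
      · simp [h2, Rd]
      · simp [h2, Rd, h]
    · simp [h, Rd]

lemma opL_apply (i : Fin 3) (v : List (Fin 3) →₀ k) (W : List (Fin 3)) :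
    opL k i v W = match W with
      | [] => 0
      | j :: W' => if i = j ∧ bad i W' = false then v W' else 0 := by
  classical
  induction v using Finsupp.induction_linear with
  | zero => cases W <;> simp
  | add f g hf hg =>
    rw [map_add, Finsupp.add_apply, hf, hg]
    cases W with
    | nil => simp
    | cons j W' => 
      simp only [Finsupp.add_apply]
      split_ifs <;> simp
  | single V c =>
    rw [opL_single]
    cases W with
    | nil =>
      split_ifs <;> simp [Finsupp.single_apply]
    | cons j W' =>
      by_cases h : bad i V = true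
      · rw [if_pos h]
        simp only [Finsupp.coe_zero, Pi.zero_apply]
        split_ifs with h2
        · rw [Finsupp.single_apply, if_neg]
          rintro rfl
          rw [h] at h2
          simp at h2
        · rfl
      · rw [if_neg h, Finsupp.single_apply]
        by_cases h3 : i :: V = j :: W'
        · rw [if_pos h3]
          obtain ⟨h4, h5⟩ := List.cons.inj h3
          subst h4; subst h5
          simp [h]
        · rw [if_neg h3]
          change (0 : k) = if i = j ∧ bad i W' = false then (Finsupp.single V c) W' else 0
          split_ifs with h4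
          · rw [Finsupp.single_apply, if_neg]
            rintro rfl
            exact h3 (by rw [h4.1])
          · rfl

end Coeff

end MP446Y
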